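import Pool.Agent.Helper40.Arc.BS

/-! Algebraic polynomials bounded on `[-1,1]` in the variable `x = cos (t / n)`. -/

set_option autoImplicit false

namespace Pool.Agent.Helper40.Arc

open Polynomial

/-- the complex polynomial belonging to `P (cos θ)` -/
noncomputable def FF (n : ℕ) (P : ℝ[X]) : ℂ[X] :=
  ∑ k ∈ Finset.range (n + 1), C (P.coeff k : ℂ) * (X ^ (n - k) * (C (1 / 2 : ℂ) * (X ^ 2 + 1)) ^ k)

theorem FF_eval {n : ℕ} {P : ℝ[X]} (hP : P.natDegree ≤ n) (θ : ℝ) :
    (FF n P).eval (Complex.exp (θ * Complex.I)) =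
      Complex.exp (n * θ * Complex.I) * (P.eval (Real.cos θ) : ℝ) := by
  set z : ℂ := Complex.exp (θ * Complex.I) with hz
  have hz0 : z ≠ 0 := Complex.exp_ne_zero _
  have h1 : z ^ 2 + 1 = 2 * z * Complex.cos θ := by
    rw [Complex.cos, ← hz]
    have h2 : Complex.exp (-(θ : ℂ) * Complex.I) = z⁻¹ := by
      rw [hz, ← Complex.exp_neg]; congr 1; ring
    rw [h2]
    field_simp
  have h3 : Complex.exp (n * θ * Complex.I) = z ^ n := by
    rw [hz, ← Complex.exp_nat_mul]; congr 1; ring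
  rw [h3, P.eval_eq_sum_range' (Nat.lt_succ_of_le hP), FF, eval_finset_sum]
  push_cast
  rw [Finset.mul_sum]
  refine Finset.sum_congr rfl (fun k hk => ?_)
  have hkn : k ≤ n := Nat.lt_succ_iff.1 (Finset.mem_range.1 hk)
  simp only [eval_mul, eval_C, eval_pow, eval_X, eval_add, eval_one]
  rw [h1, show (1 / 2 : ℂ) * (2 * z * Complex.cos θ) = z * Complex.cos θ by ring, mul_pow]
  have h4 : z ^ n = z ^ (n - k) * z ^ k := by rw [← pow_add]; congr 1; omega
  rw [h4]
  ring

theorem FF_natDegree (n : ℕ) (P : ℝ[X]) : (FF n P).natDegree ≤ 2 * n := by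
  refine natDegree_sum_le_of_forall_le _ _ (fun k hk => ?_)
  have hkn : k ≤ n := Nat.lt_succ_iff.1 (Finset.mem_range.1 hk)
  have h1 : (C (1 / 2 : ℂ) * (X ^ 2 + 1) : ℂ[X]).natDegree ≤ 2 := by compute_degree
  have h2 : ((C (1 / 2 : ℂ) * (X ^ 2 + 1)) ^ k : ℂ[X]).natDegree ≤ k * 2 :=
    natDegree_pow_le_of_le k h1
  refine (natDegree_C_mul_le _ _).trans ?_
  refine natDegree_mul_le.trans ?_
  rw [natDegree_X_pow]
  omega

/-- the relation between the derivatives -/
theorem deriv_rel {n : ℕ} {F : ℂ[X]} {f f' : ℝ → ℝ}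
    (hF : ∀ θ : ℝ, F.eval (Complex.exp (θ * Complex.I)) =
      Complex.exp (n * θ * Complex.I) * f θ)
    (hf : ∀ θ, HasDerivAt f (f' θ) θ) (θ : ℝ) :
    Complex.exp (θ * Complex.I) * F.derivative.eval (Complex.exp (θ * Complex.I)) =
      Complex.exp (n * θ * Complex.I) * (n * f θ - Complex.I * f' θ) := by
  set z : ℂ := Complex.exp (θ * Complex.I) with hz
  set e : ℂ := Complex.exp (n * θ * Complex.I) with he
  have h1 : HasDerivAt (fun t : ℝ => F.eval (Complex.exp (t * Complex.I)))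
      (F.derivative.eval z * (z * Complex.I)) θ := by
    have h0 : HasDerivAt (fun t : ℝ => Complex.exp ((t : ℂ) * Complex.I))
        (Complex.exp (θ * Complex.I) * (1 * Complex.I)) θ := by
      have := ((hasDerivAt_id θ).ofReal_comp.mul_const Complex.I).cexp
      simpa using this
    have h2 := (F.hasDerivAt z).comp θ h0
    simpa [one_mul, Function.comp_def] using h2
  have h2 : HasDerivAt (fun t : ℝ => Complex.exp (n * t * Complex.I) * (f t : ℂ))
      (e * (n * Complex.I) * f θ + e * f' θ) θ := by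
    have h0 : HasDerivAt (fun t : ℝ => Complex.exp ((n : ℂ) * t * Complex.I))
        (e * (n * 1 * Complex.I)) θ := by
      have := (((hasDerivAt_id θ).ofReal_comp.const_mul (n : ℂ)).mul_const Complex.I).cexp
      simpa using this
    have h3 : HasDerivAt (fun t : ℝ => Complex.exp (n * t * Complex.I) * (f t : ℂ))
        (e * (n * 1 * Complex.I) * f θ + Complex.exp (n * θ * Complex.I) * f' θ) θ :=
      h0.mul ((hf θ).ofReal_comp)
    rw [mul_one, ← he] at h3
    exact h3
  have h3 := h1.unique (h2.congr_of_eventuallyEq (Filter.Eventually.of_forall hF))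
  have h4 : z * F.derivative.eval z * Complex.I = e * (n * f θ - Complex.I * f' θ) * Complex.I := by
    rw [show z * F.derivative.eval z * Complex.I = F.derivative.eval z * (z * Complex.I) by ring,
      h3]
    have : Complex.I * Complex.I = -1 := Complex.I_mul_I
    linear_combination (e * f' θ) * this
  exact mul_right_cancel₀ Complex.I_ne_zero h4

/-- both Bernstein-Szego inequalities -/
theorem bs_both {n : ℕ} (hn : 1 ≤ n) {F : ℂ[X]} (hdeg : F.natDegree ≤ 2 * n) {f f' f'' : ℝ → ℝ}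
    (hF : ∀ θ : ℝ, F.eval (Complex.exp (θ * Complex.I)) =
      Complex.exp (n * θ * Complex.I) * f θ)
    (hf : ∀ θ, HasDerivAt f (f' θ) θ) (hf' : ∀ θ, HasDerivAt f' (f'' θ) θ)
    (hb : ∀ θ, |f θ| ≤ 1) (θ : ℝ) :
    f' θ ^ 2 + n ^ 2 * f θ ^ 2 ≤ n ^ 2 ∧ f'' θ ^ 2 + n ^ 2 * f' θ ^ 2 ≤ n ^ 4 := by
  have hn0 : (0 : ℝ) < n := by exact_mod_cast hn
  have h1 := bernstein_szego hdeg hF hf hb
  refine ⟨h1 θ, ?_⟩
  set G : ℂ[X] := C (Complex.I / n) * (X * F.derivative - C (n : ℂ) * F) with hG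
  have hGd : G.natDegree ≤ 2 * n := by
    refine (natDegree_C_mul_le _ _).trans ((natDegree_sub_le _ _).trans (max_le ?_ ?_))
    · rcases Nat.eq_zero_or_pos F.natDegree with h0 | h0
      · have : F.derivative = 0 := by
          rw [eq_C_of_natDegree_eq_zero h0, derivative_C]
        rw [this, mul_zero, natDegree_zero]
        exact Nat.zero_le _
      · refine natDegree_mul_le.trans ?_
        rw [natDegree_X]
        have := natDegree_derivative_le F
        omega
    · exact (natDegree_C_mul_le _ _).trans hdeg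
  have hGe : ∀ θ : ℝ, G.eval (Complex.exp (θ * Complex.I)) =
      Complex.exp (n * θ * Complex.I) * ((f' θ / n : ℝ) : ℂ) := by
    intro θ
    have h2 := deriv_rel hF hf θ
    rw [hG, eval_mul, eval_C, eval_sub, eval_mul, eval_X, eval_mul, eval_C, h2, hF]
    have hnc : (n : ℂ) ≠ 0 := by exact_mod_cast hn0.ne'
    push_cast
    field_simp
    have : Complex.I * Complex.I = -1 := Complex.I_mul_I
    linear_combination (-(f' θ : ℂ)) * this
  have h2 := bernstein_szego hGd hGe (f' := fun θ => f'' θ / n)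
    (fun θ => (hf' θ).div_const _) (fun θ => by
      rw [abs_div, abs_of_pos hn0, div_le_one hn0]
      refine abs_le_of_sq_le_sq ?_ hn0.le
      nlinarith [h1 θ, sq_nonneg ((n : ℝ) * f θ)]) θ
  have h3 : (f'' θ / n) ^ 2 + n ^ 2 * (f' θ / n) ^ 2 = (f'' θ ^ 2 + n ^ 2 * f' θ ^ 2) / n ^ 2 := by
    field_simp
  rw [h3, div_le_iff₀ (by positivity)] at h2
  nlinarith

end Pool.Agent.Helper40.Arc
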