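import Pool.Agent.Helper40.Arc.Main
import Pool.Agent.Helper40.Arc.Poly

/-! From trajectories to polynomials. -/

set_option autoImplicit false

namespace Pool.Agent.Helper40.Arc

open Real Set Filter Topology MeasureTheory Polynomial

/-- the trajectory of a polynomial -/
theorem tr_of_poly {n : ℕ} (hn : 1 ≤ n) {P : ℝ[X]} (hdeg : P.natDegree ≤ n)
    (hb : ∀ x ∈ Icc (-1 : ℝ) 1, |P.eval x| ≤ 1) :
    Tr (fun t => P.eval (cos (t / n)))
      (fun t => -(sin (t / n) * P.derivative.eval (cos (t / n))) / n)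
      (fun t => (sin (t / n) ^ 2 * P.derivative.derivative.eval (cos (t / n)) -
        cos (t / n) * P.derivative.eval (cos (t / n))) / n ^ 2) := by
  have hn0 : (0 : ℝ) < n := by exact_mod_cast hn
  have hf : ∀ θ : ℝ, HasDerivAt (fun θ => P.eval (cos θ))
      (-(sin θ * P.derivative.eval (cos θ))) θ := by
    intro θ
    have := (P.hasDerivAt (cos θ)).comp θ (hasDerivAt_cos θ)
    refine (this.congr_deriv ?_)
    ring
  have hf' : ∀ θ : ℝ, HasDerivAt (fun θ => -(sin θ * P.derivative.eval (cos θ)))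
      (sin θ ^ 2 * P.derivative.derivative.eval (cos θ) -
        cos θ * P.derivative.eval (cos θ)) θ := by
    intro θ
    have h1 := (P.derivative.hasDerivAt (cos θ)).comp θ (hasDerivAt_cos θ)
    have h2 := ((hasDerivAt_sin θ).mul h1).neg
    refine (h2.congr_deriv ?_)
    simp only [Function.comp_apply]
    ring
  have hbs := bs_both hn (FF_natDegree n P) (fun θ => FF_eval hdeg θ) hf hf'
    (fun θ => hb _ ⟨neg_one_le_cos θ, cos_le_one θ⟩)
  have hdiv : ∀ t : ℝ, HasDerivAt (fun t : ℝ => t / n) (1 / n) t :=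
    fun t => (hasDerivAt_id t).div_const _
  refine ⟨fun t => ?_, fun t => ?_, fun t => ?_, fun t => ?_⟩
  · refine ((hf (t / n)).comp t (hdiv t)).congr_deriv ?_
    ring
  · refine (((hf' (t / n)).comp t (hdiv t)).div_const (n : ℝ)).congr_deriv ?_
    field_simp
  · have h1 := (hbs (t / n)).1
    have h2 : ((n : ℝ) ^ 2) * ((P.eval (cos (t / n))) ^ 2 +
        (-(sin (t / n) * P.derivative.eval (cos (t / n))) / n) ^ 2) ≤ n ^ 2 * 1 := by
      refine le_trans (le_of_eq ?_) (h1.trans (le_of_eq (mul_one _).symm))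
      field_simp
      ring
    exact le_of_mul_le_mul_left h2 (by positivity)
  · have h1 := (hbs (t / n)).2
    have h2 : ((n : ℝ) ^ 4) * ((-(sin (t / n) * P.derivative.eval (cos (t / n))) / n) ^ 2 +
        ((sin (t / n) ^ 2 * P.derivative.derivative.eval (cos (t / n)) -
        cos (t / n) * P.derivative.eval (cos (t / n))) / n ^ 2) ^ 2) ≤ n ^ 4 * 1 := by
      refine le_trans (le_of_eq ?_) (h1.trans (le_of_eq (mul_one _).symm))
      field_simp
      ring
    exact le_of_mul_le_mul_left h2 (by positivity)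

/-- the substitution `x = cos (t / n)` -/
theorem arc_subst {n : ℕ} (hn : 1 ≤ n) (P : ℝ[X]) {a : ℝ} (ha : -1 ≤ a) (ha1 : a ≤ 1) :
    ∫ x in a..1, √(1 + (P.derivative.eval x) ^ 2) =
      ∫ t in (0 : ℝ)..(n * arccos a), F (sin (t / n) / n)
        (-(sin (t / n) * P.derivative.eval (cos (t / n))) / n) := by
  have hn0 : (0 : ℝ) < n := by exact_mod_cast hn
  have hT : (0 : ℝ) ≤ n * arccos a := by positivity [arccos_nonneg a]
  set g : ℝ → ℝ := fun x => √(1 + (P.derivative.eval x) ^ 2) with hg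
  have hgc : Continuous g := by
    rw [hg]
    fun_prop
  have hd : ∀ t : ℝ, HasDerivAt (fun t : ℝ => cos (t / n)) (-(sin (t / n) / n)) t := by
    intro t
    have := (hasDerivAt_cos (t / n)).comp t ((hasDerivAt_id t).div_const (n : ℝ))
    refine this.congr_deriv ?_
    ring
  have h1 := intervalIntegral.integral_comp_mul_deriv (a := 0) (b := n * arccos a)
    (f := fun t : ℝ => cos (t / n)) (f' := fun t => -(sin (t / n) / n)) (g := g)
    (fun t _ => hd t) (by fun_prop) hgc
  simp only [zero_div, cos_zero] at h1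
  rw [mul_div_cancel_left₀ _ hn0.ne', cos_arccos ha ha1] at h1
  rw [intervalIntegral.integral_symm, ← h1, ← intervalIntegral.integral_neg]
  refine intervalIntegral.integral_congr (fun t ht => ?_)
  rw [uIcc_of_le hT] at ht
  have hs : 0 ≤ sin (t / n) := by
    apply sin_nonneg_of_nonneg_of_le_pi
    · exact div_nonneg ht.1 hn0.le
    · rw [div_le_iff₀ hn0]
      nlinarith [ht.2, arccos_le_pi a]
  simp only [Function.comp_apply, hg]
  unfold F
  rw [show (sin (t / n) / n) ^ 2 + (-(sin (t / n) * P.derivative.eval (cos (t / n))) / n) ^ 2 =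
    (sin (t / n) / n) ^ 2 * (1 + (P.derivative.eval (cos (t / n))) ^ 2) by ring,
    sqrt_mul (sq_nonneg _), sqrt_sq (by positivity)]
  ring

/-- the trajectory of the Chebyshev polynomial -/
theorem u_cheb {n : ℕ} (hn : 1 ≤ n) (t : ℝ) :
    -(sin (t / n) * (Chebyshev.T ℝ n).derivative.eval (cos (t / n))) / n = -sin t := by
  have hn0 : (0 : ℝ) < n := by exact_mod_cast hn
  have h1 : HasDerivAt (fun t : ℝ => (Chebyshev.T ℝ n).eval (cos (t / n)))
      (-(sin (t / n) * (Chebyshev.T ℝ n).derivative.eval (cos (t / n))) / n) t := by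
    have := (((Chebyshev.T ℝ n).hasDerivAt (cos (t / n))).comp (t / n)
      (hasDerivAt_cos (t / n))).comp t ((hasDerivAt_id t).div_const (n : ℝ))
    refine this.congr_deriv ?_
    ring
  have h2 : (fun t : ℝ => (Chebyshev.T ℝ n).eval (cos (t / n))) = cos := by
    funext s
    rw [Chebyshev.T_real_cos]
    congr 1
    push_cast
    field_simp
  rw [h2] at h1
  exact h1.unique (hasDerivAt_cos t)

theorem arc_cheb {n : ℕ} (hn : 1 ≤ n) {a : ℝ} (ha : -1 ≤ a) (ha1 : a ≤ 1) :
    ∫ x in a..1, √(1 + ((Chebyshev.T ℝ n).derivative.eval x) ^ 2) =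
      ∫ t in (0 : ℝ)..(n * arccos a), F (sin (t / n) / n) |sin t| := by
  rw [arc_subst hn _ ha ha1]
  congr 1
  funext t
  rw [u_cheb hn, F_neg, F_abs]

/-- the derivative at `1` -/
theorem deriv_one_lt {n : ℕ} (hn : 1 ≤ n) {P : ℝ[X]} (hdeg : P.degree ≤ n)
    (hb : ∀ x ∈ Icc (-1 : ℝ) 1, |P.eval x| ≤ 1) (h1 : P ≠ Chebyshev.T ℝ n)
    (h2 : P ≠ -Chebyshev.T ℝ n) : |P.derivative.eval 1| < n ^ 2 := by
  have hT : (Chebyshev.T ℝ n).derivative.eval 1 = (n : ℝ) ^ 2 := by
    rw [Chebyshev.derivative_T_eval_one]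
    push_cast
    rfl
  have hd' : (-P).degree ≤ n := by rw [degree_neg]; exact hdeg
  have hb' : ∀ x ∈ Icc (-1 : ℝ) 1, |(-P).eval x| ≤ 1 := by
    intro x hx
    rw [eval_neg, abs_neg]
    exact hb x hx
  have a1 := Chebyshev.eval_iterate_derivative_le_of_forall_abs_le_one (k := 1) (x := 1) le_rfl
    hdeg hb
  have a2 := Chebyshev.eval_iterate_derivative_le_of_forall_abs_le_one (k := 1) (x := 1) le_rfl
    hd' hb'
  have b1 := Chebyshev.eval_iterate_derivative_eq_iff_of_bounded (k := 1) one_pos hn (x := 1)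
    le_rfl hdeg hb
  have b2 := Chebyshev.eval_iterate_derivative_eq_iff_of_bounded (k := 1) one_pos hn (x := 1)
    le_rfl hd' hb'
  simp only [Function.iterate_one, hT, derivative_neg, eval_neg] at a1 a2 b1 b2
  rw [abs_lt]
  constructor
  · have : -P.derivative.eval 1 ≠ (n : ℝ) ^ 2 := fun h => h2 (by
      rw [← b2.1 h, neg_neg])
    have := lt_of_le_of_ne a2 this
    linarith
  · exact lt_of_le_of_ne a1 (fun h => h1 (b1.1 h))

/-- the theorem for `[a, 1]` -/
theorem right_end {n : ℕ} (hn : 1 ≤ n) {P : ℝ[X]} (hdeg : P.degree ≤ n)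
    (hb : ∀ x ∈ Icc (-1 : ℝ) 1, |P.eval x| ≤ 1) {a : ℝ} (ha : 0 ≤ a) (ha1 : a < 1)
    (h1 : P ≠ Chebyshev.T ℝ n) (h2 : P ≠ -Chebyshev.T ℝ n) :
    ∫ x in a..1, √(1 + (P.derivative.eval x) ^ 2) <
      ∫ x in a..1, √(1 + ((Chebyshev.T ℝ n).derivative.eval x) ^ 2) := by
  have hn0 : (0 : ℝ) < n := by exact_mod_cast hn
  by_cases hP : P.derivative = 0
  · rw [hP]
    simp only [eval_zero]
    refine intervalIntegral.integral_lt_integral_of_continuousOn_of_le_of_exists_lt ha1
      (by fun_prop) (by fun_prop) (fun x _ => ?_) ⟨1, ⟨ha1.le, le_rfl⟩, ?_⟩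
    · apply sqrt_le_sqrt
      nlinarith [sq_nonneg ((Chebyshev.T ℝ n).derivative.eval x)]
    · have hT : (Chebyshev.T ℝ n).derivative.eval 1 = (n : ℝ) ^ 2 := by
        rw [Chebyshev.derivative_T_eval_one]
        push_cast
        rfl
      rw [hT]
      apply sqrt_lt_sqrt (by norm_num)
      have : (0 : ℝ) < ((n : ℝ) ^ 2) ^ 2 := by positivity
      linarith
  · have hnd : P.natDegree ≤ n := natDegree_le_iff_degree_le.2 hdeg
    have htr := tr_of_poly hn hnd hb
    set T : ℝ := n * arccos a with hTd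
    have hTpos : 0 < T := mul_pos hn0 (arccos_pos.2 ha1)
    have hTle : T ≤ n * (π / 2) := mul_le_mul_of_nonneg_left (arccos_le_pi_div_two.2 ha) hn0.le
    rw [arc_subst hn P (by linarith) ha1.le, arc_cheb hn (by linarith) ha1.le]
    have hdd : ∀ t ∈ Icc 0 T, 0 ≤ t / n ∧ t / n ≤ π / 2 := by
      intro t ht
      refine ⟨div_nonneg ht.1 hn0.le, ?_⟩
      rw [div_le_iff₀ hn0]
      linarith [ht.2]
    refine main_strict htr hTpos (by simp) (by fun_prop) (fun t ht => ?_) ?_ ?_ ?_
    · have := hdd t ht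
      exact div_nonneg (sin_nonneg_of_nonneg_of_le_pi this.1 (by linarith [pi_pos])) hn0.le
    · intro s hs t ht hst
      have h3 := hdd s hs
      have h4 := hdd t ht
      have h5 : s / n < t / n := div_lt_div_of_pos_right hst hn0
      have h6 := sin_lt_sin_of_lt_of_le_pi_div_two (by linarith [pi_pos]) h4.2 h5
      exact div_lt_div_of_pos_right h6 hn0
    · have hinj : InjOn (fun t : ℝ => cos (t / n)) {t | t ∈ Ioc 0 T ∧
          -(sin (t / n) * P.derivative.eval (cos (t / n))) / n = 0} := by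
        intro s hs t ht hst
        have h3 := hdd s ⟨hs.1.1.le, hs.1.2⟩
        have h4 := hdd t ⟨ht.1.1.le, ht.1.2⟩
        have h5 := injOn_cos ⟨h3.1, by linarith [pi_pos]⟩ ⟨h4.1, by linarith [pi_pos]⟩ hst
        have h6 := congrArg (fun x => x * (n : ℝ)) h5
        simpa [div_mul_cancel₀ _ hn0.ne'] using h6
      refine Set.Finite.of_finite_image ((P.derivative.roots.toFinset.finite_toSet).subset ?_) hinj
      rintro _ ⟨t, ⟨ht, ht2⟩, rfl⟩
      have h3 := hdd t ⟨ht.1.le, ht.2⟩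
      have h4 : 0 < sin (t / n) := sin_pos_of_pos_of_lt_pi (div_pos ht.1 hn0)
        (by linarith [pi_pos])
      have h5 : P.derivative.eval (cos (t / n)) = 0 := by
        rcases div_eq_zero_iff.1 ht2 with h | h
        · rcases mul_eq_zero.1 (neg_eq_zero.1 h) with h | h
          · exact absurd h h4.ne'
          · exact h
        · exact absurd h hn0.ne'
      simp only [Finset.mem_coe, Multiset.mem_toFinset]
      rw [mem_roots hP]
      exact h5
    · have h3 := deriv_one_lt hn hdeg hb h1 h2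
      simp only [zero_div, sin_zero, cos_zero]
      rw [abs_lt] at h3 ⊢
      have hn2 : (0 : ℝ) < (n : ℝ) ^ 2 := by positivity
      constructor
      · rw [lt_div_iff₀ hn2]
        linarith [h3.2]
      · rw [div_lt_iff₀ hn2]
        linarith [h3.1]

theorem arc_neg (P : ℝ[X]) (a b : ℝ) :
    ∫ x in a..b, √(1 + ((-P).derivative.eval x) ^ 2) =
      ∫ x in a..b, √(1 + (P.derivative.eval x) ^ 2) := by
  congr 1
  funext x
  rw [derivative_neg, eval_neg, neg_sq]

theorem arc_comp (P : ℝ[X]) (a b : ℝ) :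
    ∫ x in a..b, √(1 + ((P.comp (-X)).derivative.eval x) ^ 2) =
      ∫ x in (-b)..(-a), √(1 + (P.derivative.eval x) ^ 2) := by
  rw [← intervalIntegral.integral_comp_neg]
  congr 1
  funext x
  rw [derivative_comp]
  simp

theorem comp_neg_neg (P : ℝ[X]) : (P.comp (-X)).comp (-X) = P := by
  rw [comp_assoc]
  simp

theorem cheb_comp (n : ℕ) : (Chebyshev.T ℝ n).comp (-X) = Chebyshev.T ℝ n ∨
    (Chebyshev.T ℝ n).comp (-X) = -Chebyshev.T ℝ n := by
  rcases Int.even_or_odd (n : ℤ) with h | h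
  · left
    refine Polynomial.funext (fun x => ?_)
    rw [eval_comp, eval_neg, eval_X, Chebyshev.T_eval_neg, Int.negOnePow_even _ h]
    simp
  · right
    refine Polynomial.funext (fun x => ?_)
    rw [eval_comp, eval_neg, eval_X, Chebyshev.T_eval_neg, Int.negOnePow_odd _ h]
    simp

/-- the theorem for `[-1, b]` -/
theorem left_end {n : ℕ} (hn : 1 ≤ n) {P : ℝ[X]} (hdeg : P.degree ≤ n)
    (hb : ∀ x ∈ Icc (-1 : ℝ) 1, |P.eval x| ≤ 1) {b : ℝ} (hb0 : b ≤ 0) (hb1 : -1 < b)
    (h1 : P ≠ Chebyshev.T ℝ n) (h2 : P ≠ -Chebyshev.T ℝ n) :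
    ∫ x in (-1)..b, √(1 + (P.derivative.eval x) ^ 2) <
      ∫ x in (-1)..b, √(1 + ((Chebyshev.T ℝ n).derivative.eval x) ^ 2) := by
  have e1 := arc_comp P (-b) 1
  have e2 := arc_comp (Chebyshev.T ℝ n) (-b) 1
  rw [neg_neg] at e1 e2
  rw [← e1, ← e2]
  have hdeg' : (P.comp (-X)).degree ≤ n := by
    rw [← natDegree_le_iff_degree_le] at hdeg ⊢
    rw [natDegree_comp, natDegree_neg, natDegree_X, mul_one]
    exact hdeg
  have hb' : ∀ x ∈ Icc (-1 : ℝ) 1, |(P.comp (-X)).eval x| ≤ 1 := by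
    intro x hx
    rw [eval_comp, eval_neg, eval_X]
    exact hb _ ⟨by linarith [hx.2], by linarith [hx.1]⟩
  have k1 : P.comp (-X) ≠ Chebyshev.T ℝ n := by
    intro h
    have h3 := congrArg (fun Q : ℝ[X] => Q.comp (-X)) h
    simp only [comp_neg_neg] at h3
    rcases cheb_comp n with h4 | h4
    · exact h1 (h3.trans h4)
    · exact h2 (h3.trans h4)
  have k2 : P.comp (-X) ≠ -Chebyshev.T ℝ n := by
    intro h
    have h3 := congrArg (fun Q : ℝ[X] => Q.comp (-X)) h
    simp only [comp_neg_neg, neg_comp] at h3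
    rcases cheb_comp n with h4 | h4
    · exact h2 (by rw [h3, h4])
    · exact h1 (by rw [h3, h4, neg_neg])
  have key := right_end hn hdeg' hb' (a := -b) (by linarith) (by linarith) k1 k2
  refine key.trans_eq ?_
  rcases cheb_comp n with h4 | h4
  · rw [h4]
  · rw [h4, arc_neg]

end Pool.Agent.Helper40.Arc
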