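import Pool.Agent.Helper40.Arc.Fn

/-! Trajectories: functions satisfying both Bernstein-Szego inequalities. -/

set_option autoImplicit false

namespace Pool.Agent.Helper40.Arc

open Real Set Filter Topology MeasureTheory

/-- functions `q` with derivatives `u`, `v` satisfying the two Bernstein-Szego inequalities -/
structure Tr (q u v : ℝ → ℝ) : Prop where
  hq : ∀ t, HasDerivAt q (u t) t
  hu : ∀ t, HasDerivAt u (v t) t
  b1 : ∀ t, q t ^ 2 + u t ^ 2 ≤ 1
  b2 : ∀ t, u t ^ 2 + v t ^ 2 ≤ 1

namespace Tr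

variable {q u v : ℝ → ℝ}

theorem cont_u (h : Tr q u v) : Continuous u :=
  continuous_iff_continuousAt.2 fun t => (h.hu t).continuousAt

theorem cont_q (h : Tr q u v) : Continuous q :=
  continuous_iff_continuousAt.2 fun t => (h.hq t).continuousAt

theorem neg (h : Tr q u v) : Tr (fun t => -q t) (fun t => -u t) (fun t => -v t) :=
  ⟨fun t => (h.hq t).fun_neg, fun t => (h.hu t).fun_neg, fun t => by simpa using h.b1 t,
    fun t => by simpa using h.b2 t⟩

theorem shift (h : Tr q u v) (s : ℝ) :
    Tr (fun t => q (t + s)) (fun t => u (t + s)) (fun t => v (t + s)) :=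
  ⟨fun t => (h.hq (t + s)).comp_add_const t s, fun t => (h.hu (t + s)).comp_add_const t s,
    fun _ => h.b1 _, fun _ => h.b2 _⟩

theorem abs_u_le (h : Tr q u v) (t : ℝ) : |u t| ≤ 1 := by
  have := h.b2 t
  exact abs_le_of_sq_le_sq (by nlinarith [sq_nonneg (v t)]) (by norm_num)

/-- the phase is `1`-Lipschitz -/
theorem lip (h : Tr q u v) (s t : ℝ) : |arcsin (u t) - arcsin (u s)| ≤ |t - s| := by
  have key : ∀ r ∈ Ioo (0 : ℝ) 1, |arcsin (r * u t) - arcsin (r * u s)| ≤ |t - s| := by
    intro r hr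
    have hru : ∀ x, r * u x ≠ -1 ∧ r * u x ≠ 1 := by
      intro x
      have h1 := abs_le.1 (h.abs_u_le x)
      constructor
      · intro h2
        nlinarith [hr.1, hr.2]
      · intro h2
        nlinarith [hr.1, hr.2]
    have hd : ∀ x ∈ (univ : Set ℝ), HasDerivWithinAt (fun x => arcsin (r * u x))
        (1 / √(1 - (r * u x) ^ 2) * (r * v x)) univ x := by
      intro x _
      exact (((hasDerivAt_arcsin (hru x).1 (hru x).2).comp x
        ((h.hu x).const_mul r))).hasDerivWithinAt
    have hb : ∀ x ∈ (univ : Set ℝ), ‖1 / √(1 - (r * u x) ^ 2) * (r * v x)‖ ≤ 1 := by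
      intro x _
      have h1 := h.b2 x
      have h2 : (0 : ℝ) < 1 - (r * u x) ^ 2 := by
        have h3 : (r * u x) ^ 2 ≤ r ^ 2 := by
          rw [mul_pow]
          have : u x ^ 2 ≤ 1 := by nlinarith [sq_nonneg (v x)]
          nlinarith [sq_nonneg r]
        nlinarith [hr.1, hr.2]
      have h3 : 0 < √(1 - (r * u x) ^ 2) := Real.sqrt_pos.2 h2
      rw [Real.norm_eq_abs, abs_mul, abs_of_pos (by positivity : 0 < 1 / √(1 - (r * u x) ^ 2)),
        one_div_mul_eq_div, div_le_one h3]
      apply Real.le_sqrt_of_sq_le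
      rw [sq_abs]
      have : r ^ 2 ≤ 1 := by nlinarith [hr.1, hr.2]
      nlinarith [sq_nonneg (v x), sq_nonneg (u x)]
    have h3 := convex_univ.norm_image_sub_le_of_norm_hasDerivWithin_le hd hb
      (mem_univ s) (mem_univ t)
    simpa [Real.norm_eq_abs] using h3
  have hc : Continuous (fun r : ℝ => |arcsin (r * u t) - arcsin (r * u s)|) := by
    have := Real.continuous_arcsin
    fun_prop
  have h1 : Tendsto (fun r : ℝ => |arcsin (r * u t) - arcsin (r * u s)|) (𝓝[<] 1)
      (𝓝 |arcsin (u t) - arcsin (u s)|) := by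
    have h2 := (hc.tendsto 1).mono_left (nhdsWithin_le_nhds (s := Iio 1))
    simpa using h2
  refine le_of_tendsto h1 ?_
  have : Ioo (0 : ℝ) 1 ∈ 𝓝[<] (1 : ℝ) := Ioo_mem_nhdsLT one_pos
  filter_upwards [this] with r hr using key r hr

/-- pointwise bound near a zero of `u` -/
theorem bound (h : Tr q u v) {s t : ℝ} (hs : u s = 0) (ht : |t - s| ≤ π / 2) :
    |u t| ≤ sin |t - s| := by
  have h1 := h.lip s t
  rw [hs, arcsin_zero, sub_zero] at h1
  have h2 := abs_le.1 (h.abs_u_le t)
  have h3 : u t = sin (arcsin (u t)) := (sin_arcsin h2.1 h2.2).symm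
  have h4 : |u t| = sin |arcsin (u t)| := by
    rcases le_or_gt 0 (arcsin (u t)) with h5 | h5
    · rw [abs_of_nonneg h5, ← h3, abs_of_nonneg (arcsin_nonneg.1 h5)]
    · rw [abs_of_neg h5, sin_neg, ← h3, abs_of_neg (by
        by_contra hcon
        exact absurd (arcsin_nonneg.2 (not_lt.1 hcon)) (not_le.2 h5))]
  rw [h4]
  exact sin_le_sin_of_le_of_le_pi_div_two (by linarith [abs_nonneg (arcsin (u t)), pi_pos]) ht h1

end Tr

/-- the integral of the one-variable integrand -/
noncomputable def Ph (c x : ℝ) : ℝ := ∫ s in (0 : ℝ)..x, (F c (sin s) - c)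

theorem Ph_integrand_cont (c : ℝ) : Continuous (fun s => F c (sin s) - c) :=
  (F_comp_cont continuous_const continuous_sin).sub continuous_const

theorem Ph_deriv (c x : ℝ) : HasDerivAt (Ph c) (F c (sin x) - c) x :=
  intervalIntegral.integral_hasDerivAt_right ((Ph_integrand_cont c).intervalIntegrable _ _)
    ((Ph_integrand_cont c).stronglyMeasurableAtFilter _ _) (Ph_integrand_cont c).continuousAt

theorem Ph_cont (c : ℝ) : Continuous (Ph c) :=
  continuous_iff_continuousAt.2 fun x => (Ph_deriv c x).continuousAt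

theorem Ph_mono {c : ℝ} (hc : 0 ≤ c) : Monotone (Ph c) := by
  refine monotone_of_deriv_nonneg (fun x => (Ph_deriv c x).differentiableAt) (fun x => ?_)
  rw [(Ph_deriv c x).deriv]
  have := F_mono (c := c) le_rfl (abs_nonneg (sin x))
  rw [F_zero hc, F_abs] at this
  linarith

theorem Ph_zero (c : ℝ) : Ph c 0 = 0 := by simp [Ph]

theorem Ph_reflect (c x : ℝ) : Ph c (π - x) = 2 * Ph c (π / 2) - Ph c x := by
  have h1 : ∀ y, HasDerivAt (fun y => Ph c (π - y) + Ph c y) 0 y := by
    intro y
    have h2 : HasDerivAt (fun y => Ph c (π - y)) ((F c (sin (π - y)) - c) * (-1)) y := by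
      have := (Ph_deriv c (π - y)).comp y ((hasDerivAt_id y).const_sub π)
      simpa [Function.comp_def] using this
    have h3 := h2.add (Ph_deriv c y)
    rw [sin_pi_sub] at h3
    have e : (F c (sin y) - c) * (-1) + (F c (sin y) - c) = 0 := by ring
    rw [e] at h3
    exact h3
  have h2 : (fun y => Ph c (π - y) + Ph c y) x = (fun y => Ph c (π - y) + Ph c y) (π / 2) :=
    is_const_of_deriv_eq_zero (fun y => (h1 y).differentiableAt) (fun y => (h1 y).deriv) _ _
  simp only at h2
  rw [show π - π / 2 = π / 2 by ring] at h2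
  linarith

end Pool.Agent.Helper40.Arc
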