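import Mathlib

/-! The Bernstein-Szego inequality for real trigonometric polynomials. -/

set_option autoImplicit false

namespace Pool.Agent.Helper40.Arc

open Polynomial Complex

/-- logarithmic derivative of a polynomial without zeros in the closed unit disc -/
theorem re_logDeriv_le {G : ℂ[X]} {m : ℕ} (hm : G.natDegree ≤ 2 * m)
    (hG : ∀ z : ℂ, ‖z‖ ≤ 1 → G.eval z ≠ 0) {z : ℂ} (hz : ‖z‖ = 1) :
    (z * G.derivative.eval z / G.eval z).re ≤ m := by
  have hz0 : G.eval z ≠ 0 := hG z hz.le
  have hG0 : G ≠ 0 := by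
    rintro rfl
    simp at hz0
  have h1 : z * G.derivative.eval z / G.eval z = (G.roots.map fun w ↦ z / (z - w)).sum := by
    rw [mul_div_assoc, (IsAlgClosed.splits G).eval_derivative_div_eval_of_ne_zero hz0,
      ← Multiset.sum_map_mul_left]
    simp only [mul_one_div]
  rw [h1]
  have h2 : ∀ w ∈ G.roots, (z / (z - w)).re ≤ 1 / 2 := by
    intro w hw
    have hw1 : 1 < ‖w‖ := by
      by_contra hcon
      exact hG w (not_lt.1 hcon) ((mem_roots hG0).1 hw)
    have hzw : z - w ≠ 0 := by
      intro h
      rw [sub_eq_zero] at h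
      rw [h] at hz
      linarith
    have hpos : 0 < normSq (z - w) := normSq_pos.2 hzw
    have e1 : normSq z = 1 := by rw [normSq_eq_norm_sq, hz]; norm_num
    have e2 : 1 < normSq w := by
      rw [normSq_eq_norm_sq]
      nlinarith
    rw [div_re, ← add_div, div_le_iff₀ hpos]
    rw [normSq_apply] at e1 e2 ⊢
    simp only [sub_re, sub_im]
    nlinarith
  have h3 : ∀ s : Multiset ℂ, (∀ w ∈ s, (z / (z - w)).re ≤ 1 / 2) →
      ((s.map fun w ↦ z / (z - w)).sum).re ≤ (Multiset.card s : ℝ) * (1 / 2) := by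
    intro s
    induction s using Multiset.induction with
    | empty => intro _; simp
    | cons a s ih =>
      intro h
      rw [Multiset.map_cons, Multiset.sum_cons, add_re, Multiset.card_cons]
      have ha := h a (Multiset.mem_cons_self a s)
      have hs := ih (fun w hw => h w (Multiset.mem_cons_of_mem hw))
      push_cast
      linarith
  have h4 : (Multiset.card G.roots : ℝ) ≤ 2 * m := by
    have := (card_roots' G).trans hm
    exact_mod_cast this
  have h5 := h3 G.roots h2
  linarith

/-- the Bernstein-Szego inequality -/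
theorem bernstein_szego {n : ℕ} {F : ℂ[X]} (hdeg : F.natDegree ≤ 2 * n) {f f' : ℝ → ℝ}
    (hF : ∀ θ : ℝ, F.eval (exp (θ * I)) = exp (n * θ * I) * f θ)
    (hf : ∀ θ, HasDerivAt f (f' θ) θ) (hb : ∀ θ, |f θ| ≤ 1) (θ : ℝ) :
    f' θ ^ 2 + n ^ 2 * f θ ^ 2 ≤ n ^ 2 := by
  set z : ℂ := exp (θ * I) with hz
  set e : ℂ := exp (n * θ * I) with he
  have hz1 : ‖z‖ = 1 := norm_exp_ofReal_mul_I θ
  have he1 : ‖e‖ = 1 := by
    have := norm_exp_ofReal_mul_I (n * θ)
    push_cast at this
    exact this
  have he0 : e ≠ 0 := exp_ne_zero _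
  -- the derivative
  have hder : z * F.derivative.eval z = e * (n * f θ - I * f' θ) := by
    have h1 : HasDerivAt (fun t : ℝ => F.eval (exp (t * I)))
        (F.derivative.eval z * (z * I)) θ := by
      have h0 : HasDerivAt (fun t : ℝ => exp ((t : ℂ) * I)) (exp (θ * I) * (1 * I)) θ := by
        have := ((hasDerivAt_id θ).ofReal_comp.mul_const I).cexp
        simpa using this
      have h2 := (F.hasDerivAt z).comp θ h0
      simpa [one_mul, Function.comp_def] using h2
    have h2 : HasDerivAt (fun t : ℝ => exp (n * t * I) * (f t : ℂ))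
        (e * (n * I) * f θ + e * f' θ) θ := by
      have h0 : HasDerivAt (fun t : ℝ => exp ((n : ℂ) * t * I)) (e * (n * 1 * I)) θ := by
        have := (((hasDerivAt_id θ).ofReal_comp.const_mul (n : ℂ)).mul_const I).cexp
        simpa using this
      have h3 : HasDerivAt (fun t : ℝ => exp (n * t * I) * (f t : ℂ))
          (e * (n * 1 * I) * f θ + exp (n * θ * I) * f' θ) θ := h0.mul ((hf θ).ofReal_comp)
      rw [mul_one, ← he] at h3
      exact h3
    have h3 := h1.unique (h2.congr_of_eventuallyEq (Filter.Eventually.of_forall hF))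
    have h4 : z * F.derivative.eval z * I = e * (n * f θ - I * f' θ) * I := by
      rw [show z * F.derivative.eval z * I = F.derivative.eval z * (z * I) by ring, h3]
      have : I * I = -1 := I_mul_I
      linear_combination (e * f' θ) * this
    exact mul_right_cancel₀ I_ne_zero h4
  -- boundedness in the disc
  have hdisc : ∀ w : ℂ, ‖w‖ ≤ 1 → ‖F.eval w‖ ≤ 1 := by
    intro w hw
    have h1 : w ∈ closure (Metric.ball (0 : ℂ) 1) := by
      rw [closure_ball (0 : ℂ) one_ne_zero]
      simpa using hw
    refine norm_le_of_forall_mem_frontier_norm_le (f := fun w => F.eval w)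
      (Metric.isBounded_ball) (F.differentiable.diffContOnCl) ?_ h1
    intro x hx
    rw [frontier_ball (0 : ℂ) one_ne_zero] at hx
    have hx1 : ‖x‖ = 1 := by simpa using hx
    have hx2 : x = exp (x.arg * I) := by
      have := norm_mul_exp_arg_mul_I x
      rw [hx1] at this
      simpa using this.symm
    show ‖F.eval x‖ ≤ 1
    rw [hx2, hF, norm_mul]
    have h3 : ‖exp ((n : ℂ) * x.arg * I)‖ = 1 := by
      have := norm_exp_ofReal_mul_I (n * x.arg)
      push_cast at this
      exact this
    rw [h3, one_mul, Complex.norm_real]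
    exact hb _
  -- the basic inequality
  have key : ∀ r : ℝ, 1 < r → ∀ x y : ℝ, x ^ 2 + y ^ 2 = 1 → n * f θ * x + f' θ * y ≤ n * r := by
    intro r hr x y hxy
    set μ : ℂ := ⟨r * x, r * y⟩ with hμ
    have hμn : ‖μ‖ = r := by
      have h1 : normSq μ = r ^ 2 := by
        rw [normSq_apply]
        show r * x * (r * x) + r * y * (r * y) = r ^ 2
        linear_combination r ^ 2 * hxy
      rw [normSq_eq_norm_sq] at h1
      exact (pow_left_inj₀ (norm_nonneg _) (by linarith) two_ne_zero).1 h1
    set G : ℂ[X] := F - C (e * μ) with hG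
    have hGe : ∀ w, G.eval w = F.eval w - e * μ := by
      intro w
      rw [hG, eval_sub, eval_C]
    have hGd : G.natDegree ≤ 2 * n := by
      refine (natDegree_sub_le _ _).trans ?_
      rw [natDegree_C]
      exact max_le hdeg (Nat.zero_le _)
    have hG0 : ∀ w : ℂ, ‖w‖ ≤ 1 → G.eval w ≠ 0 := by
      intro w hw h
      rw [hGe, sub_eq_zero] at h
      have h1 := hdisc w hw
      rw [h, norm_mul, he1, hμn, one_mul] at h1
      linarith
    have h1 := re_logDeriv_le hGd hG0 hz1
    have hGd' : G.derivative = F.derivative := by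
      rw [hG, derivative_sub, derivative_C, sub_zero]
    have hfz : F.eval z = e * f θ := hF θ
    rw [hGd', hder, hGe, hfz, ← mul_sub, mul_div_mul_left _ _ he0] at h1
    have hne : (f θ : ℂ) - μ ≠ 0 := by
      intro h
      rw [sub_eq_zero] at h
      have h2 : ‖(f θ : ℂ)‖ = r := by rw [h, hμn]
      rw [Complex.norm_real] at h2
      have := hb θ
      rw [Real.norm_eq_abs] at h2
      linarith
    have hpos : 0 < normSq ((f θ : ℂ) - μ) := normSq_pos.2 hne
    rw [div_re, ← add_div, div_le_iff₀ hpos, normSq_apply] at h1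
    have a1 : ((n : ℂ) * f θ - I * f' θ).re = n * f θ := by simp
    have a2 : ((n : ℂ) * f θ - I * f' θ).im = - f' θ := by simp
    have a3 : ((f θ : ℂ) - μ).re = f θ - r * x := by simp [hμ]
    have a4 : ((f θ : ℂ) - μ).im = - (r * y) := by simp [hμ]
    rw [a1, a2, a3, a4] at h1
    have h5 : r * (n * f θ * x + f' θ * y) ≤ r * (n * r) := by
      have : (f θ - r * x) * (f θ - r * x) + -(r * y) * -(r * y) =
          f θ ^ 2 - 2 * f θ * r * x + r ^ 2 := by
        linear_combination r ^ 2 * hxy
      rw [this] at h1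
      linarith
    exact le_of_mul_le_mul_left h5 (by linarith)
  have key2 : ∀ x y : ℝ, x ^ 2 + y ^ 2 = 1 → n * f θ * x + f' θ * y ≤ n := by
    intro x y hxy
    refine le_of_forall_pos_le_add (fun ε hε => ?_)
    have hn0 : (0 : ℝ) ≤ n := Nat.cast_nonneg n
    have h1 := key (1 + ε / (n + 1)) (by
      have : 0 < ε / (n + 1) := by positivity
      linarith) x y hxy
    have h2 : (n : ℝ) * (1 + ε / (n + 1)) ≤ n + ε := by
      have h3 : (n : ℝ) * (ε / (n + 1)) ≤ ε := by
        rw [mul_div_assoc', div_le_iff₀ (by positivity)]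
        nlinarith
      linarith
    linarith
  set N : ℝ := Real.sqrt (f' θ ^ 2 + (n * f θ) ^ 2) with hN
  have hN2 : N ^ 2 = f' θ ^ 2 + (n * f θ) ^ 2 := Real.sq_sqrt (by positivity)
  have hN0 : 0 ≤ N := Real.sqrt_nonneg _
  rcases hN0.eq_or_lt with h0 | h0
  · rw [← h0] at hN2
    nlinarith [sq_nonneg (n : ℝ)]
  · have h1 := key2 (n * f θ / N) (f' θ / N) (by
      rw [div_pow, div_pow, ← add_div, div_eq_one_iff_eq (by positivity)]
      linarith)
    have h2 : n * f θ * (n * f θ / N) + f' θ * (f' θ / N) = N := by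
      rw [mul_div_assoc', mul_div_assoc', ← add_div, div_eq_iff h0.ne']
      nlinarith
    rw [h2] at h1
    have h3 : N ^ 2 ≤ (n : ℝ) ^ 2 := pow_le_pow_left₀ hN0 h1 2
    rw [hN2] at h3
    linarith [mul_pow (n : ℝ) (f θ) 2]

end Pool.Agent.Helper40.Arc
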