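import Pool.Agent.Helper40.Arc.Traj

/-! The Bellman function of one hump. -/

set_option autoImplicit false

namespace Pool.Agent.Helper40.Arc

open Real Set Filter Topology MeasureTheory

variable {q u v : ℝ → ℝ}

/-- the estimate for the scaled trajectory -/
theorem bellman_aux (h : Tr q u v) {c l : ℝ} (hc : 0 ≤ c) (hl : 0 ≤ l) (h0 : u 0 = 0)
    (hpos : ∀ t ∈ Icc 0 l, 0 ≤ u t) {r : ℝ} (hr : r ∈ Ioo (0 : ℝ) 1) :
    ∫ t in (0 : ℝ)..l, (F c (r * u t) - c) ≤ 2 * Ph c (π / 2) - Ph c (arcsin (r * u l)) := by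
  -- notation
  set k : ℝ → ℝ := fun t => √(1 - (r * u t) ^ 2) with hk
  set C : ℝ → ℝ := fun t => (r * q t + k t) / 2 with hC
  set S : ℝ → ℝ := fun t => √(1 - C t ^ 2) with hS
  have hr0 := hr.1
  have hr1 := hr.2
  have hrr : r ^ 2 < 1 := by nlinarith
  have hu1 : ∀ t, (r * u t) ^ 2 ≤ r ^ 2 := by
    intro t
    rw [mul_pow]
    have := h.b2 t
    have : u t ^ 2 ≤ 1 := by nlinarith [sq_nonneg (v t)]
    nlinarith [sq_nonneg r]
  have hk2 : ∀ t, k t ^ 2 = 1 - (r * u t) ^ 2 := fun t => Real.sq_sqrt (by linarith [hu1 t])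
  have hkpos : ∀ t, 0 < k t := fun t => Real.sqrt_pos.2 (by linarith [hu1 t])
  have hk1 : ∀ t, k t ≤ 1 := fun t => by
    rw [hk]
    exact Real.sqrt_le_one.2 (by nlinarith [sq_nonneg (r * u t)])
  have hqk : ∀ t, (r * q t) ^ 2 ≤ k t ^ 2 := by
    intro t
    rw [hk2 t, mul_pow, mul_pow]
    have := h.b1 t
    nlinarith [sq_nonneg (q t), sq_nonneg (u t)]
  have hqk' : ∀ t, |r * q t| ≤ k t := fun t => abs_le_of_sq_le_sq (hqk t) (hkpos t).le
  have hqr : ∀ t, |r * q t| ≤ r := fun t => by
    refine abs_le_of_sq_le_sq ?_ hr0.le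
    rw [mul_pow]
    have := h.b1 t
    have : q t ^ 2 ≤ 1 := by nlinarith [sq_nonneg (u t)]
    nlinarith [sq_nonneg r]
  have hC0 : ∀ t, 0 ≤ C t := fun t => by
    have := (abs_le.1 (hqk' t)).1
    rw [hC]
    simp only
    linarith
  have hCk : ∀ t, C t ≤ k t := fun t => by
    have := (abs_le.1 (hqk' t)).2
    rw [hC]
    simp only
    linarith
  have hC1 : ∀ t, C t < 1 := fun t => by
    have h1 := (abs_le.1 (hqr t)).2
    have h2 := hk1 t
    rw [hC]
    simp only
    linarith
  have hS2 : ∀ t, S t ^ 2 = 1 - C t ^ 2 := fun t => Real.sq_sqrt (by nlinarith [hC0 t, hC1 t])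
  have hSpos : ∀ t, 0 < S t := fun t => Real.sqrt_pos.2 (by nlinarith [hC0 t, hC1 t])
  have hune : ∀ t, r * u t ≠ -1 ∧ r * u t ≠ 1 := by
    intro t
    constructor
    · intro h2
      have := hu1 t
      rw [h2] at this
      linarith
    · intro h2
      have := hu1 t
      rw [h2] at this
      linarith
  have hvk : ∀ t, r * v t ≤ k t := by
    intro t
    apply Real.le_sqrt_of_sq_le
    have := h.b2 t
    nlinarith [sq_nonneg (v t), sq_nonneg (u t)]
  -- derivatives
  have dk : ∀ t, HasDerivAt k (-(r * u t) * (r * v t) / k t) t := by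
    intro t
    have h1 : HasDerivAt (fun t => 1 - (r * u t) ^ 2) (-(2 * (r * u t) * (r * v t))) t := by
      have := (((h.hu t).const_mul r).fun_pow 2).const_sub 1
      simpa using this
    have h2 := h1.sqrt (by linarith [hu1 t])
    have e : -(2 * (r * u t) * (r * v t)) / (2 * √(1 - (r * u t) ^ 2)) =
        -(r * u t) * (r * v t) / k t := by
      rw [hk]
      field_simp
    rw [e] at h2
    exact h2
  have dC : ∀ t, HasDerivAt C ((r * u t + -(r * u t) * (r * v t) / k t) / 2) t := fun t =>
    ((((h.hq t).const_mul r).fun_add (dk t))).div_const 2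
  have dpsi : ∀ t, HasDerivAt (fun t => arccos (C t))
      (-(1 / S t) * ((r * u t + -(r * u t) * (r * v t) / k t) / 2)) t := by
    intro t
    exact (hasDerivAt_arccos (by linarith [hC0 t]) (by linarith [hC1 t])).comp t (dC t)
  have dphi : ∀ t, HasDerivAt (fun t => arcsin (r * u t)) (1 / k t * (r * v t)) t := by
    intro t
    exact (hasDerivAt_arcsin (hune t).1 (hune t).2).comp t ((h.hu t).const_mul r)
  have hsinpsi : ∀ t, sin (arccos (C t)) = S t := fun t => sin_arccos _
  have hsinphi : ∀ t, sin (arcsin (r * u t)) = r * u t := by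
    intro t
    have := abs_le_of_sq_le_sq (hu1 t) hr0.le
    have := abs_le.1 this
    exact sin_arcsin (by linarith) (by linarith)
  have hcont : Continuous (fun t => F c (r * u t) - c) :=
    (F_comp_cont continuous_const (continuous_const.mul h.cont_u)).sub continuous_const
  set H : ℝ → ℝ := fun t => 2 * Ph c (arccos (C t)) - Ph c (arcsin (r * u t)) +
    ∫ s in (0 : ℝ)..t, (F c (r * u s) - c) with hH
  have dH : ∀ t, HasDerivAt H ((1 - r * v t / k t) *
      ((F c (r * u t) - c) - r * u t * (F c (S t) - c) / S t)) t := by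
    intro t
    have h1 := ((Ph_deriv c (arccos (C t))).comp t (dpsi t)).const_mul 2
    have h2 := (Ph_deriv c (arcsin (r * u t))).comp t (dphi t)
    have h3 : HasDerivAt (fun t => ∫ s in (0 : ℝ)..t, (F c (r * u s) - c)) (F c (r * u t) - c) t :=
      intervalIntegral.integral_hasDerivAt_right (hcont.intervalIntegrable _ _)
        (hcont.stronglyMeasurableAtFilter _ _) hcont.continuousAt
    have h4 := (h1.fun_sub h2).fun_add h3
    rw [hsinpsi, hsinphi] at h4
    have e : 2 * ((F c (S t) - c) * (-(1 / S t) * ((r * u t + -(r * u t) * (r * v t) / k t) / 2))) -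
        (F c (r * u t) - c) * (1 / k t * (r * v t)) + (F c (r * u t) - c) =
        (1 - r * v t / k t) * ((F c (r * u t) - c) - r * u t * (F c (S t) - c) / S t) := by
      have := (hSpos t).ne'
      have := (hkpos t).ne'
      field_simp
      ring
    rw [e] at h4
    exact h4
  have hanti : AntitoneOn H (Icc 0 l) := by
    refine antitoneOn_of_deriv_nonpos (convex_Icc 0 l)
      (fun t _ => (dH t).continuousAt.continuousWithinAt)
      (fun t _ => (dH t).differentiableAt.differentiableWithinAt) (fun t ht => ?_)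
    rw [interior_Icc] at ht
    rw [(dH t).deriv]
    refine mul_nonpos_of_nonneg_of_nonpos ?_ ?_
    · rw [sub_nonneg, div_le_one (hkpos t)]
      exact hvk t
    · have hut : 0 ≤ r * u t := mul_nonneg hr0.le (hpos t ⟨ht.1.le, ht.2.le⟩)
      have hus : r * u t ≤ S t := by
        refine abs_le_of_sq_le_sq' ?_ (hSpos t).le |>.2
        rw [hS2]
        have := hk2 t
        nlinarith [hC0 t, hCk t]
      have h5 := F_star hc hut hus
      rw [sub_nonpos, le_div_iff₀ (hSpos t)]
      linarith
  have h6 := hanti (left_mem_Icc.2 hl) (right_mem_Icc.2 hl) hl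
  have e0 : H 0 ≤ 2 * Ph c (π / 2) := by
    rw [hH]
    simp only [h0, mul_zero, arcsin_zero, Ph_zero, sub_zero, intervalIntegral.integral_same,
      add_zero]
    refine mul_le_mul_of_nonneg_left (Ph_mono hc ?_) zero_le_two
    rw [arccos_le_pi_div_two]
    exact hC0 0
  have e1 : Ph c (arcsin (r * u l)) + ∫ s in (0 : ℝ)..l, (F c (r * u s) - c) ≤ H l := by
    rw [hH]
    simp only
    have h7 : arcsin (r * u l) ≤ arccos (C l) := by
      have h8 : 0 ≤ arcsin (r * u l) :=
        arcsin_nonneg.2 (mul_nonneg hr0.le (hpos l (right_mem_Icc.2 hl)))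
      have h9 : arccos (cos (arcsin (r * u l))) = arcsin (r * u l) :=
        arccos_cos h8 (by linarith [arcsin_le_pi_div_two (r * u l), pi_pos])
      rw [← h9]
      refine arccos_le_arccos ?_
      rw [cos_arcsin]
      exact hCk l
    have h8 := Ph_mono hc h7
    linarith
  linarith

/-- the area above a constant level of one hump -/
theorem bellman (h : Tr q u v) {c l : ℝ} (hc : 0 ≤ c) (hl : 0 ≤ l) (h0 : u 0 = 0)
    (hpos : ∀ t ∈ Icc 0 l, 0 ≤ u t) :
    ∫ t in (0 : ℝ)..l, (F c (u t) - c) ≤ 2 * Ph c (π / 2) - Ph c (arcsin (u l)) := by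
  have hcont : Continuous (fun t => F c (u t) - c) :=
    (F_comp_cont continuous_const h.cont_u).sub continuous_const
  have key : ∀ r ∈ Ioo (0 : ℝ) 1, ∫ t in (0 : ℝ)..l, (F c (u t) - c) ≤
      2 * Ph c (π / 2) - Ph c (arcsin (r * u l)) + (1 - r) * l := by
    intro r hr
    have hcontr : Continuous (fun t => F c (r * u t) - c) :=
      (F_comp_cont continuous_const (continuous_const.mul h.cont_u)).sub continuous_const
    have h1 := bellman_aux h hc hl h0 hpos hr
    have h2 : ∫ t in (0 : ℝ)..l, (F c (u t) - c) ≤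
        ∫ t in (0 : ℝ)..l, ((F c (r * u t) - c) + (1 - r)) := by
      refine intervalIntegral.integral_mono_on hl (hcont.intervalIntegrable _ _)
        ((hcontr.add continuous_const).intervalIntegrable _ _) (fun t ht => ?_)
      have h3 := hpos t ht
      have h4 := (abs_le.1 (h.abs_u_le t)).2
      have h5 : r * u t ≤ u t := by nlinarith [hr.2]
      have h6 := F_lip (c := c) (mul_nonneg hr.1.le h3) h5
      nlinarith [hr.2]
    rw [intervalIntegral.integral_add (hcontr.intervalIntegrable _ _)
      (intervalIntegrable_const), intervalIntegral.integral_const, smul_eq_mul, sub_zero] at h2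
    linarith
  have hc2 : Continuous (fun r : ℝ => 2 * Ph c (π / 2) - Ph c (arcsin (r * u l)) + (1 - r) * l) := by
    have h1 : Continuous (fun r : ℝ => Ph c (arcsin (r * u l))) :=
      (Ph_cont c).comp (Real.continuous_arcsin.comp (continuous_id.mul continuous_const))
    fun_prop
  have h1 : Tendsto (fun r : ℝ => 2 * Ph c (π / 2) - Ph c (arcsin (r * u l)) + (1 - r) * l)
      (𝓝[<] 1) (𝓝 (2 * Ph c (π / 2) - Ph c (arcsin (u l)))) := by
    have h2 := (hc2.tendsto 1).mono_left (nhdsWithin_le_nhds (s := Iio 1))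
    simpa using h2
  refine ge_of_tendsto h1 ?_
  have : Ioo (0 : ℝ) 1 ∈ 𝓝[<] (1 : ℝ) := Ioo_mem_nhdsLT one_pos
  filter_upwards [this] with r hr using key r hr

end Pool.Agent.Helper40.Arc
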