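import Mathlib

/-! The integrand and comparison of phases. -/

set_option autoImplicit false

namespace Pool.Agent.Helper40.Arc

open Real

/-- the integrand -/
noncomputable def F (c w : ℝ) : ℝ := √(c ^ 2 + w ^ 2)

theorem F_nonneg (c w : ℝ) : 0 ≤ F c w := Real.sqrt_nonneg _

theorem F_sq (c w : ℝ) : F c w ^ 2 = c ^ 2 + w ^ 2 := Real.sq_sqrt (by positivity)

theorem F_zero {c : ℝ} (hc : 0 ≤ c) : F c 0 = c := by
  unfold F
  rw [zero_pow two_ne_zero, add_zero, Real.sqrt_sq hc]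

theorem F_abs (c w : ℝ) : F c |w| = F c w := by
  unfold F
  rw [sq_abs]

@[fun_prop]
theorem F_cont : Continuous (fun p : ℝ × ℝ => F p.1 p.2) := by
  unfold F
  fun_prop

theorem F_comp_cont {f g : ℝ → ℝ} (hf : Continuous f) (hg : Continuous g) :
    Continuous (fun t => F (f t) (g t)) := F_cont.comp (hf.prodMk hg)

theorem F_mono {c w₁ w₂ : ℝ} (h0 : 0 ≤ w₁) (h : w₁ ≤ w₂) : F c w₁ ≤ F c w₂ := by
  unfold F
  apply Real.sqrt_le_sqrt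
  nlinarith

theorem F_strict {c w₁ w₂ : ℝ} (h0 : 0 ≤ w₁) (h : w₁ < w₂) : F c w₁ < F c w₂ := by
  unfold F
  apply Real.sqrt_lt_sqrt (by positivity)
  nlinarith

theorem F_mono_c {c₁ c₂ w : ℝ} (h0 : 0 ≤ c₁) (h : c₁ ≤ c₂) : F c₁ w ≤ F c₂ w := by
  unfold F
  apply Real.sqrt_le_sqrt
  nlinarith

theorem F_strict_c {c₁ c₂ w : ℝ} (h0 : 0 ≤ c₁) (h : c₁ < c₂) : F c₁ w < F c₂ w := by
  unfold F
  apply Real.sqrt_lt_sqrt (by positivity)
  nlinarith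

theorem F_diff {c₁ c₂ w₁ w₂ : ℝ} (hc : 0 ≤ c₁) (hcc : c₁ ≤ c₂) (hw : 0 ≤ w₁) (hww : w₁ ≤ w₂) :
    F c₂ w₂ - F c₂ w₁ ≤ F c₁ w₂ - F c₁ w₁ := by
  have a1 := F_sq c₁ w₁
  have a2 := F_sq c₁ w₂
  have a3 := F_sq c₂ w₁
  have a4 := F_sq c₂ w₂
  have b1 := F_mono (c := c₁) hw hww
  have b2 := F_mono (c := c₂) hw hww
  have b3 := F_mono_c (w := w₁) hc hcc
  have b4 := F_mono_c (w := w₂) hc hcc
  have n1 := F_nonneg c₁ w₁
  by_contra hcon
  push Not at hcon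
  have h1 : (F c₁ w₂ - F c₁ w₁) * (F c₁ w₂ + F c₁ w₁) ≤
      (F c₁ w₂ - F c₁ w₁) * (F c₂ w₂ + F c₂ w₁) :=
    mul_le_mul_of_nonneg_left (by linarith) (by linarith)
  have h2 : 0 < F c₂ w₂ + F c₂ w₁ := by
    rcases (add_nonneg (F_nonneg c₂ w₂) (F_nonneg c₂ w₁)).eq_or_lt with h | h
    · have := F_nonneg c₂ w₂
      have := F_nonneg c₂ w₁
      linarith
    · exact h
  have h3 : (F c₁ w₂ - F c₁ w₁) * (F c₂ w₂ + F c₂ w₁) <
      (F c₂ w₂ - F c₂ w₁) * (F c₂ w₂ + F c₂ w₁) := mul_lt_mul_of_pos_right hcon h2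
  nlinarith

theorem F_diff_strict {c₁ c₂ w₁ w₂ : ℝ} (hc : 0 ≤ c₁) (hcc : c₁ < c₂) (hw : 0 ≤ w₁)
    (hww : w₁ < w₂) : F c₂ w₂ - F c₂ w₁ < F c₁ w₂ - F c₁ w₁ := by
  have a1 := F_sq c₁ w₁
  have a2 := F_sq c₁ w₂
  have a3 := F_sq c₂ w₁
  have a4 := F_sq c₂ w₂
  have b1 := F_strict (c := c₁) hw hww
  have b2 := F_strict (c := c₂) hw hww
  have b3 := F_strict_c (w := w₁) hc hcc
  have b4 := F_strict_c (w := w₂) hc hcc
  have n1 := F_nonneg c₁ w₁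
  by_contra hcon
  push Not at hcon
  have h1 : (F c₁ w₂ - F c₁ w₁) * (F c₁ w₂ + F c₁ w₁) <
      (F c₁ w₂ - F c₁ w₁) * (F c₂ w₂ + F c₂ w₁) :=
    mul_lt_mul_of_pos_left (by linarith) (by linarith)
  have h2 : 0 < F c₂ w₂ + F c₂ w₁ := by
    linarith
  have h3 : (F c₁ w₂ - F c₁ w₁) * (F c₂ w₂ + F c₂ w₁) ≤
      (F c₂ w₂ - F c₂ w₁) * (F c₂ w₂ + F c₂ w₁) := mul_le_mul_of_nonneg_right hcon h2.le
  nlinarith

/-- the integrand is `1`-Lipschitz -/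
theorem F_lip {c w₁ w₂ : ℝ} (hw : 0 ≤ w₁) (hww : w₁ ≤ w₂) : F c w₂ ≤ F c w₁ + (w₂ - w₁) := by
  have h1 : F c w₂ ≤ √((F c w₁ + (w₂ - w₁)) ^ 2) := by
    unfold F
    apply Real.sqrt_le_sqrt
    have h2 : w₁ ≤ √(c ^ 2 + w₁ ^ 2) := by
      apply Real.le_sqrt_of_sq_le
      nlinarith [sq_nonneg c]
    have h3 : √(c ^ 2 + w₁ ^ 2) ^ 2 = c ^ 2 + w₁ ^ 2 := Real.sq_sqrt (by positivity)
    nlinarith
  rwa [Real.sqrt_sq (add_nonneg (F_nonneg _ _) (by linarith))] at h1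

/-- `(F c w - c) / w` is monotone in `w` -/
theorem F_star {c w₁ w₂ : ℝ} (hc : 0 ≤ c) (hw : 0 ≤ w₁) (hww : w₁ ≤ w₂) :
    (F c w₁ - c) * w₂ ≤ (F c w₂ - c) * w₁ := by
  rcases (hw.trans hww).eq_or_lt with h0 | h0
  · have : w₁ = 0 := le_antisymm (by linarith) hw
    rw [this, ← h0]
  · set l := w₁ / w₂ with hl
    have hl0 : 0 ≤ l := div_nonneg hw h0.le
    have hl1 : l ≤ 1 := (div_le_one h0).2 hww
    have hw1 : w₁ = l * w₂ := by rw [hl]; field_simp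
    have hB : c ≤ F c w₂ := by
      have := F_mono (c := c) le_rfl h0.le
      rwa [F_zero hc] at this
    have h1 : F c w₁ ≤ l * F c w₂ + (1 - l) * c := by
      have h2 : F c w₁ ≤ √((l * F c w₂ + (1 - l) * c) ^ 2) := by
        conv_lhs => unfold F
        apply Real.sqrt_le_sqrt
        have h3 := F_sq c w₂
        have e1 : (l * F c w₂ + (1 - l) * c) ^ 2 =
            l ^ 2 * F c w₂ ^ 2 + 2 * l * (1 - l) * (F c w₂ * c) + (1 - l) ^ 2 * c ^ 2 := by ring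
        rw [e1, h3, hw1]
        have h4 : c * c ≤ F c w₂ * c := mul_le_mul_of_nonneg_right hB hc
        have h5 : 0 ≤ 2 * l * (1 - l) := by
          have : 0 ≤ 1 - l := by linarith
          positivity
        nlinarith [mul_le_mul_of_nonneg_left h4 h5]
      rwa [Real.sqrt_sq (by
        have := F_nonneg c w₂
        have : 0 ≤ 1 - l := by linarith
        positivity)] at h2
    have h2 : F c w₁ - c ≤ l * (F c w₂ - c) := by linarith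
    calc (F c w₁ - c) * w₂ ≤ l * (F c w₂ - c) * w₂ := mul_le_mul_of_nonneg_right h2 h0.le
      _ = (F c w₂ - c) * w₁ := by rw [hw1]; ring

end Pool.Agent.Helper40.Arc
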