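import Pool.Agent.Helper40.Arc.Bellman

/-! One hump: comparison with the sine. -/

set_option autoImplicit false

namespace Pool.Agent.Helper40.Arc

open Real Set Filter Topology MeasureTheory

variable {q u v : ℝ → ℝ}

/-- the standard hump -/
noncomputable def sg (x : ℝ) : ℝ := sin (min x π)

theorem sg_cont : Continuous sg := continuous_sin.comp (continuous_id.min continuous_const)

theorem sg_nonneg {x : ℝ} (hx : 0 ≤ x) : 0 ≤ sg x :=
  sin_nonneg_of_nonneg_of_le_pi (le_min hx pi_pos.le) (min_le_right _ _)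

theorem near_zero (h : Tr q u v) (h0 : u 0 = 0) (hv : v 0 < 1) {δ : ℝ} (hδ : 0 < δ) :
    ∃ t ∈ Ioo 0 δ, u t < sin t := by
  have h1 : HasDerivAt (fun t => sin t - u t) (1 - v 0) 0 := by
    have := (hasDerivAt_sin 0).sub (h.hu 0)
    rwa [cos_zero] at this
  have h2 := h1.tendsto_slope.eventually (eventually_gt_nhds (show (0 : ℝ) < 1 - v 0 by linarith))
  have h3 : ∀ᶠ t in 𝓝[>] (0 : ℝ), 0 < slope (fun t => sin t - u t) 0 t :=
    h2.filter_mono (nhdsGT_le_nhdsNE 0)
  have h4 : Ioo (0 : ℝ) δ ∈ 𝓝[>] (0 : ℝ) := Ioo_mem_nhdsGT hδ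
  obtain ⟨t, ht, ht2⟩ := (h3.and h4).exists
  refine ⟨t, ht2, ?_⟩
  rw [slope_def_field, sin_zero, h0, sub_zero, sub_zero, sub_zero] at ht
  have := (div_pos_iff_of_pos_right ht2.1).1 ht
  linarith

section hump

variable {l : ℝ}

theorem ph_le (h : Tr q u v) {s t : ℝ} (hst : s ≤ t) :
    arcsin (u s) + s ≤ arcsin (u t) + t := by
  have := h.lip s t
  rw [abs_of_nonneg (by linarith : 0 ≤ t - s)] at this
  have := (abs_le.1 this).1
  linarith

theorem ph_le_self (h : Tr q u v) (h0 : u 0 = 0) {t : ℝ} (ht : 0 ≤ t) : arcsin (u t) ≤ t := by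
  have := h.lip 0 t
  rw [h0, arcsin_zero, sub_zero, sub_zero, abs_of_nonneg ht] at this
  exact (abs_le.1 this).2

theorem u_eq (h : Tr q u v) (t : ℝ) : sin (arcsin (u t)) = u t := by
  have := abs_le.1 (h.abs_u_le t)
  exact sin_arcsin this.1 this.2

/-- before the crossing -/
theorem le_sg (h : Tr q u v) (h0 : u 0 = 0) {t : ℝ} (ht : 0 ≤ t) (htu : 0 ≤ u t)
    (hc : arcsin (u t) + t ≤ π) : u t ≤ sg t := by
  have h1 : 0 ≤ arcsin (u t) := arcsin_nonneg.2 htu
  have h2 : t ≤ π := by linarith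
  rw [sg, min_eq_left h2, ← u_eq h t]
  rcases le_total t (π / 2) with h3 | h3
  · exact sin_le_sin_of_le_of_le_pi_div_two (by linarith [pi_pos]) h3 (ph_le_self h h0 ht)
  · rw [← sin_pi_sub t]
    exact sin_le_sin_of_le_of_le_pi_div_two (by linarith [pi_pos]) (by linarith) (by linarith)

/-- after the crossing -/
theorem sg_le (h : Tr q u v) {t : ℝ} (ht : π / 2 ≤ t) (htu : 0 ≤ u t)
    (hc : π ≤ arcsin (u t) + t) : sg t ≤ u t := by
  rcases le_total t π with h2 | h2
  · rw [sg, min_eq_left h2, ← sin_pi_sub t, ← u_eq h t]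
    exact sin_le_sin_of_le_of_le_pi_div_two (by linarith [pi_pos]) (arcsin_le_pi_div_two _)
      (by linarith)
  · rw [sg, min_eq_right h2, sin_pi]
    exact htu

theorem sg_int {c0 : ℝ} (hc0 : 0 ≤ c0) (hl : 0 ≤ l) :
    Ph c0 (min l π) ≤ ∫ t in (0 : ℝ)..l, (F c0 (sg t) - c0) := by
  have hcont : Continuous (fun t => F c0 (sg t) - c0) :=
    (F_comp_cont continuous_const sg_cont).sub continuous_const
  have hm0 : 0 ≤ min l π := le_min hl pi_pos.le
  have h1 : Ph c0 (min l π) = ∫ t in (0 : ℝ)..(min l π), (F c0 (sg t) - c0) := by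
    unfold Ph
    refine intervalIntegral.integral_congr (fun t ht => ?_)
    rw [uIcc_of_le hm0] at ht
    rw [sg, min_eq_left (ht.2.trans (min_le_right _ _))]
  have h2 : ∫ t in (0 : ℝ)..l, (F c0 (sg t) - c0) =
      (∫ t in (0 : ℝ)..(min l π), (F c0 (sg t) - c0)) +
        ∫ t in (min l π)..l, (F c0 (sg t) - c0) :=
    (intervalIntegral.integral_add_adjacent_intervals (hcont.intervalIntegrable _ _)
      (hcont.intervalIntegrable _ _)).symm
  have h3 : 0 ≤ ∫ t in (min l π)..l, (F c0 (sg t) - c0) := by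
    refine intervalIntegral.integral_nonneg (min_le_left _ _) (fun t ht => ?_)
    have := F_mono (c := c0) le_rfl (sg_nonneg (hm0.trans ht.1))
    rw [F_zero hc0] at this
    linarith
  linarith

variable {c : ℝ → ℝ}

/-- the comparison for one hump, with strictness -/
theorem hump_aux (h : Tr q u v) (hl : 0 ≤ l) (h0 : u 0 = 0) (hpos : ∀ t ∈ Icc 0 l, 0 ≤ u t)
    (hc0 : ∀ t ∈ Icc 0 l, 0 ≤ c t) (hm : MonotoneOn c (Icc 0 l)) :
    ∃ g : ℝ → ℝ, Continuous g ∧ (∀ t ∈ Icc 0 l, g t ≤ F (c t) (sg t) - F (c t) (u t)) ∧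
      0 ≤ ∫ t in (0 : ℝ)..l, g t ∧ (v 0 < 1 → StrictMonoOn c (Icc 0 l) → 0 < l →
        ∃ t ∈ Icc 0 l, g t < F (c t) (sg t) - F (c t) (u t)) := by
  rcases le_or_gt (arcsin (u l) + l) π with hA | hB
  · -- no crossing
    refine ⟨fun _ => 0, continuous_const, fun t ht => ?_, by simp, fun hv hs hl0 => ?_⟩
    · have h1 := le_sg h h0 ht.1 (hpos t ht) ((ph_le h ht.2).trans hA)
      have := F_mono (c := c t) (hpos t ht) h1
      linarith
    · obtain ⟨t, ht, ht2⟩ := near_zero h h0 hv (lt_min hl0 pi_pos)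
      have ht' : t ∈ Icc 0 l := ⟨ht.1.le, ht.2.le.trans (min_le_left _ _)⟩
      refine ⟨t, ht', ?_⟩
      have h3 : u t < sg t := by
        rw [sg, min_eq_left (ht.2.le.trans (min_le_right _ _))]
        exact ht2
      have := F_strict (c := c t) (hpos t ht') h3
      simp only
      linarith
  · -- crossing
    have hcs : ContinuousOn (fun t => arcsin (u t) + t) (Icc 0 l) :=
      ((Real.continuous_arcsin.comp h.cont_u).add continuous_id).continuousOn
    obtain ⟨x0, hx0, hx0e⟩ := intermediate_value_Icc hl hcs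
      (show π ∈ Icc (arcsin (u 0) + 0) (arcsin (u l) + l) by
        rw [h0, arcsin_zero, add_zero]
        exact ⟨pi_pos.le, hB.le⟩)
    simp only at hx0e
    have hx0h : π / 2 ≤ x0 := by
      have := arcsin_le_pi_div_two (u x0)
      linarith
    have hc00 : 0 ≤ c x0 := hc0 x0 hx0
    have hsplit : ∀ t ∈ Icc 0 l, F (c x0) (sg t) - F (c x0) (u t) ≤
        F (c t) (sg t) - F (c t) (u t) := by
      intro t ht
      rcases le_total t x0 with h1 | h1
      · have h2 := le_sg h h0 ht.1 (hpos t ht) ((ph_le h h1).trans hx0e.le)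
        exact F_diff (hc0 t ht) (hm ht hx0 h1) (hpos t ht) h2
      · have h2 := sg_le h (hx0h.trans h1) (hpos t ht) (hx0e.symm.le.trans (ph_le h h1))
        have h3 := F_diff hc00 (hm hx0 ht h1) (sg_nonneg ht.1) h2
        linarith
    refine ⟨fun t => F (c x0) (sg t) - F (c x0) (u t), ?_, hsplit, ?_, fun hv hs hl0 => ?_⟩
    · exact (F_comp_cont continuous_const sg_cont).sub (F_comp_cont continuous_const h.cont_u)
    · have hcont1 : Continuous (fun t => F (c x0) (sg t) - c x0) :=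
        (F_comp_cont continuous_const sg_cont).sub continuous_const
      have hcont2 : Continuous (fun t => F (c x0) (u t) - c x0) :=
        (F_comp_cont continuous_const h.cont_u).sub continuous_const
      have e1 : ∫ t in (0 : ℝ)..l, (F (c x0) (sg t) - F (c x0) (u t)) =
          (∫ t in (0 : ℝ)..l, (F (c x0) (sg t) - c x0)) -
            ∫ t in (0 : ℝ)..l, (F (c x0) (u t) - c x0) := by
        rw [← intervalIntegral.integral_sub (hcont1.intervalIntegrable _ _)
          (hcont2.intervalIntegrable _ _)]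
        congr 1
        funext t
        ring
      rw [e1]
      have h1 := sg_int hc00 hl
      have h2 := bellman h hc00 hl h0 hpos
      have h3 := Ph_reflect (c x0) (min l π)
      have h4 : π - min l π ≤ arcsin (u l) := by
        rcases le_total l π with h5 | h5
        · rw [min_eq_left h5]
          linarith
        · rw [min_eq_right h5, sub_self]
          exact arcsin_nonneg.2 (hpos l (right_mem_Icc.2 hl))
      have h5 := Ph_mono hc00 h4
      linarith
    · have hx0pos : 0 < x0 := by linarith [pi_pos]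
      obtain ⟨t, ht, ht2⟩ := near_zero h h0 hv (lt_min hx0pos pi_pos)
      have ht0 : t < x0 := ht.2.trans_le (min_le_left _ _)
      have ht' : t ∈ Icc 0 l := ⟨ht.1.le, ht0.le.trans hx0.2⟩
      refine ⟨t, ht', ?_⟩
      have h3 : u t < sg t := by
        rw [sg, min_eq_left (ht.2.le.trans (min_le_right _ _))]
        exact ht2
      exact F_diff_strict (hc0 t ht') (hs ht' hx0 ht0) (hpos t ht') h3

theorem hump (h : Tr q u v) (hl : 0 ≤ l) (h0 : u 0 = 0) (hpos : ∀ t ∈ Icc 0 l, 0 ≤ u t)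
    (hc : Continuous c) (hc0 : ∀ t ∈ Icc 0 l, 0 ≤ c t) (hm : MonotoneOn c (Icc 0 l)) :
    ∫ t in (0 : ℝ)..l, F (c t) (u t) ≤ ∫ t in (0 : ℝ)..l, F (c t) (sg t) := by
  obtain ⟨g, hg, h1, h2, -⟩ := hump_aux h hl h0 hpos hc0 hm
  have c1 : Continuous (fun t => F (c t) (sg t)) := F_comp_cont hc sg_cont
  have c2 : Continuous (fun t => F (c t) (u t)) := F_comp_cont hc h.cont_u
  have h3 : ∫ t in (0 : ℝ)..l, g t ≤ ∫ t in (0 : ℝ)..l, (F (c t) (sg t) - F (c t) (u t)) :=
    intervalIntegral.integral_mono_on hl (hg.intervalIntegrable _ _)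
      ((c1.sub c2).intervalIntegrable _ _) h1
  rw [intervalIntegral.integral_sub (c1.intervalIntegrable _ _) (c2.intervalIntegrable _ _)] at h3
  linarith

theorem hump_strict (h : Tr q u v) (hl : 0 < l) (h0 : u 0 = 0) (hpos : ∀ t ∈ Icc 0 l, 0 ≤ u t)
    (hc : Continuous c) (hc0 : ∀ t ∈ Icc 0 l, 0 ≤ c t) (hm : StrictMonoOn c (Icc 0 l))
    (hv : v 0 < 1) :
    ∫ t in (0 : ℝ)..l, F (c t) (u t) < ∫ t in (0 : ℝ)..l, F (c t) (sg t) := by
  obtain ⟨g, hg, h1, h2, h3⟩ := hump_aux h hl.le h0 hpos hc0 hm.monotoneOn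
  obtain ⟨t, ht, ht2⟩ := h3 hv hm hl
  have c1 : Continuous (fun t => F (c t) (sg t)) := F_comp_cont hc sg_cont
  have c2 : Continuous (fun t => F (c t) (u t)) := F_comp_cont hc h.cont_u
  have h4 : ∫ t in (0 : ℝ)..l, g t < ∫ t in (0 : ℝ)..l, (F (c t) (sg t) - F (c t) (u t)) :=
    intervalIntegral.integral_lt_integral_of_continuousOn_of_le_of_exists_lt hl hg.continuousOn
      (c1.sub c2).continuousOn (fun x hx => h1 x (Ioc_subset_Icc_self hx)) ⟨t, ht, ht2⟩
  rw [intervalIntegral.integral_sub (c1.intervalIntegrable _ _) (c2.intervalIntegrable _ _)] at h4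
  linarith

end hump

end Pool.Agent.Helper40.Arc
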