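import Pool.Agent.Helper40.Arc.Fn

/-! Reflection and delay inequalities. -/

set_option autoImplicit false

namespace Pool.Agent.Helper40.Arc

open Real Set Filter Topology MeasureTheory

theorem sin_le_sin_aux {y m : ℝ} (hy0 : 0 ≤ y) (hy1 : y ≤ π / 2) (hm0 : 0 ≤ m) (hm1 : m ≤ π / 2) :
    |sin (y - m)| ≤ |sin (y + m)| := by
  rw [← sq_le_sq, sin_sub, sin_add]
  have h1 : 0 ≤ sin y := sin_nonneg_of_nonneg_of_le_pi hy0 (by linarith [pi_pos])
  have h2 : 0 ≤ cos y := cos_nonneg_of_neg_pi_div_two_le_of_le (by linarith [pi_pos]) hy1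
  have h3 : 0 ≤ sin m := sin_nonneg_of_nonneg_of_le_pi hm0 (by linarith [pi_pos])
  have h4 : 0 ≤ cos m := cos_nonneg_of_neg_pi_div_two_le_of_le (by linarith [pi_pos]) hm1
  have : 0 ≤ sin y * cos m * (cos y * sin m) := by positivity
  nlinarith

/-- the reflection inequality on one period -/
theorem reflect_one {c : ℝ → ℝ} {Y m : ℝ} (hc : Continuous c) (hY : 0 ≤ Y) (hY1 : Y ≤ π)
    (hc0 : ∀ y ∈ Icc 0 Y, 0 ≤ c y) (hmono : MonotoneOn c (Icc 0 Y)) (hm0 : 0 ≤ m)
    (hm1 : m ≤ π / 2) :
    ∫ y in (0 : ℝ)..Y, F (c y) |sin (y - m)| ≤ ∫ y in (0 : ℝ)..Y, F (c y) |sin (y + m)| := by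
  have c1 : Continuous (fun y => F (c y) |sin (y - m)|) := F_comp_cont hc (by fun_prop)
  have c2 : Continuous (fun y => F (c y) |sin (y + m)|) := F_comp_cont hc (by fun_prop)
  rcases le_total Y (π / 2) with h | h
  · refine intervalIntegral.integral_mono_on hY (c1.intervalIntegrable _ _)
      (c2.intervalIntegrable _ _) (fun y hy => ?_)
    exact F_mono (abs_nonneg _) (sin_le_sin_aux hy.1 (hy.2.trans h) hm0 hm1)
  · set D : ℝ → ℝ := fun y => F (c y) |sin (y + m)| - F (c y) |sin (y - m)| with hD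
    have cD : Continuous D := c2.sub c1
    have e0 : ∫ y in (0 : ℝ)..Y, D y = (∫ y in (0 : ℝ)..Y, F (c y) |sin (y + m)|) -
        ∫ y in (0 : ℝ)..Y, F (c y) |sin (y - m)| :=
      intervalIntegral.integral_sub (c2.intervalIntegrable _ _) (c1.intervalIntegrable _ _)
    have e1 : ∫ y in (0 : ℝ)..Y, D y = (∫ y in (0 : ℝ)..(π - Y), D y) +
        (∫ y in (π - Y)..(π / 2), D y) + ∫ y in (π / 2)..Y, D y := by
      rw [intervalIntegral.integral_add_adjacent_intervals (cD.intervalIntegrable _ _)
        (cD.intervalIntegrable _ _),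
        intervalIntegral.integral_add_adjacent_intervals (cD.intervalIntegrable _ _)
        (cD.intervalIntegrable _ _)]
    have e2 : ∫ y in (π / 2)..Y, D y = ∫ y in (π - Y)..(π / 2), D (π - y) := by
      rw [intervalIntegral.integral_comp_sub_left (fun y => D y) π]
      congr 1 <;> ring
    have h1 : 0 ≤ ∫ y in (0 : ℝ)..(π - Y), D y := by
      refine intervalIntegral.integral_nonneg (by linarith) (fun y hy => ?_)
      have := F_mono (c := c y) (abs_nonneg (sin (y - m))) (sin_le_sin_aux hy.1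
        (by linarith [hy.2]) hm0 hm1)
      rw [hD]
      simp only
      linarith
    have h2 : 0 ≤ ∫ y in (π - Y)..(π / 2), (D y + D (π - y)) := by
      refine intervalIntegral.integral_nonneg (by linarith) (fun y hy => ?_)
      have hy0 : 0 ≤ y := by linarith [hy.1]
      have a1 := sin_le_sin_aux hy0 hy.2 hm0 hm1
      have m1 : y ∈ Icc 0 Y := ⟨hy0, by linarith [hy.2]⟩
      have m2 : π - y ∈ Icc 0 Y := ⟨by linarith [hy.2, pi_pos], by linarith [hy.1]⟩
      have a2 := F_diff (hc0 y m1) (hmono m1 m2 (by linarith [hy.2])) (abs_nonneg _) a1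
      have b1 : |sin (π - y + m)| = |sin (y - m)| := by
        rw [show π - y + m = π - (y - m) by ring, sin_pi_sub]
      have b2 : |sin (π - y - m)| = |sin (y + m)| := by
        rw [show π - y - m = π - (y + m) by ring, sin_pi_sub]
      rw [hD]
      simp only
      rw [b1, b2]
      linarith
    have cD2 : Continuous (fun y => D (π - y)) := cD.comp (by fun_prop)
    rw [intervalIntegral.integral_add (cD.intervalIntegrable _ _)
      (cD2.intervalIntegrable _ _)] at h2
    linarith

/-- the reflection inequality -/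
theorem reflect (N : ℕ) : ∀ {c : ℝ → ℝ} {Y m : ℝ}, Continuous c → 0 ≤ Y → Y ≤ N * π →
    (∀ y ∈ Icc 0 Y, 0 ≤ c y) → MonotoneOn c (Icc 0 Y) → 0 ≤ m → m ≤ π / 2 →
    ∫ y in (0 : ℝ)..Y, F (c y) |sin (y - m)| ≤ ∫ y in (0 : ℝ)..Y, F (c y) |sin (y + m)| := by
  induction N with
  | zero =>
    intro c Y m _ hY hY1 _ _ _ _
    have : Y = 0 := le_antisymm (by simpa using hY1) hY
    rw [this, intervalIntegral.integral_same, intervalIntegral.integral_same]
  | succ N ih =>
    intro c Y m hc hY hY1 hc0 hmono hm0 hm1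
    rcases le_total Y π with h | h
    · exact reflect_one hc hY h hc0 hmono hm0 hm1
    · have c1 : Continuous (fun y => F (c y) |sin (y - m)|) := F_comp_cont hc (by fun_prop)
      have c2 : Continuous (fun y => F (c y) |sin (y + m)|) := F_comp_cont hc (by fun_prop)
      have hsub : Icc 0 π ⊆ Icc 0 Y := Icc_subset_Icc_right h
      have h1 := reflect_one hc pi_pos.le le_rfl (fun y hy => hc0 y (hsub hy))
        (hmono.mono hsub) hm0 hm1
      push_cast at hY1
      have h2 := ih (c := fun y => c (y + π)) (Y := Y - π) (m := m) (hc.comp (by fun_prop))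
        (by linarith) (by linarith)
        (fun y hy => hc0 _ ⟨by linarith [hy.1, pi_pos], by linarith [hy.2]⟩)
        (fun x hx y hy hxy => hmono ⟨by linarith [hx.1, pi_pos], by linarith [hx.2]⟩
          ⟨by linarith [hy.1, pi_pos], by linarith [hy.2]⟩ (by linarith)) hm0 hm1
      have e1 : ∫ y in (0 : ℝ)..(Y - π), F (c (y + π)) |sin (y - m)| =
          ∫ y in π..Y, F (c y) |sin (y - m)| := by
        have := intervalIntegral.integral_comp_add_right (a := 0) (b := Y - π)
          (fun y => F (c y) |sin (y - m)|) π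
        rw [zero_add, sub_add_cancel] at this
        rw [← this]
        congr 1
        funext y
        rw [show y + π - m = (y - m) + π by ring, sin_add_pi, abs_neg]
      have e2 : ∫ y in (0 : ℝ)..(Y - π), F (c (y + π)) |sin (y + m)| =
          ∫ y in π..Y, F (c y) |sin (y + m)| := by
        have := intervalIntegral.integral_comp_add_right (a := 0) (b := Y - π)
          (fun y => F (c y) |sin (y + m)|) π
        rw [zero_add, sub_add_cancel] at this
        rw [← this]
        congr 1
        funext y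
        rw [show y + π + m = (y + m) + π by ring, sin_add_pi, abs_neg]
      rw [e1, e2] at h2
      rw [← intervalIntegral.integral_add_adjacent_intervals (c1.intervalIntegrable 0 π)
        (c1.intervalIntegrable π Y), ← intervalIntegral.integral_add_adjacent_intervals
        (c2.intervalIntegrable 0 π) (c2.intervalIntegrable π Y)]
      linarith

/-- a delay is harmful -/
theorem delay {c : ℝ → ℝ} {Y δ : ℝ} (hc : Continuous c) (hδ : 0 ≤ δ) (hY : δ ≤ Y)
    (hc0 : ∀ y ∈ Icc 0 Y, 0 ≤ c y) (hmono : MonotoneOn c (Icc 0 Y)) :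
    (∫ y in (0 : ℝ)..δ, F (c y) 0) + ∫ y in δ..Y, F (c y) |sin (y - δ)| ≤
      ∫ y in (0 : ℝ)..Y, F (c y) |sin y| := by
  have c0 : Continuous (fun y => F (c y) 0) := F_comp_cont hc continuous_const
  have c1 : Continuous (fun y => F (c y) |sin (y - δ)|) := F_comp_cont hc (by fun_prop)
  have c2 : Continuous (fun y => F (c y) |sin y|) := F_comp_cont hc (by fun_prop)
  have e1 : ∫ y in δ..Y, (F (c y) |sin (y - δ)| - F (c y) 0) =
      ∫ y in (0 : ℝ)..(Y - δ), (F (c (y + δ)) |sin y| - F (c (y + δ)) 0) := by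
    have := intervalIntegral.integral_comp_add_right (a := 0) (b := Y - δ)
      (fun y => F (c y) |sin (y - δ)| - F (c y) 0) δ
    rw [zero_add, sub_add_cancel] at this
    rw [← this]
    congr 1
    funext y
    rw [add_sub_cancel_right]
  have cs : Continuous (fun y => c (y + δ)) := hc.comp (by fun_prop)
  have h1 : ∫ y in (0 : ℝ)..(Y - δ), (F (c (y + δ)) |sin y| - F (c (y + δ)) 0) ≤
      ∫ y in (0 : ℝ)..(Y - δ), (F (c y) |sin y| - F (c y) 0) := by
    refine intervalIntegral.integral_mono_on (by linarith)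
      (((F_comp_cont cs (by fun_prop)).sub (F_comp_cont cs continuous_const)).intervalIntegrable
        _ _) ((c2.sub c0).intervalIntegrable _ _) (fun y hy => ?_)
    have m1 : y ∈ Icc 0 Y := ⟨hy.1, by linarith [hy.2]⟩
    have m2 : y + δ ∈ Icc 0 Y := ⟨by linarith [hy.1], by linarith [hy.2]⟩
    exact F_diff (hc0 y m1) (hmono m1 m2 (by linarith)) le_rfl (abs_nonneg _)
  have h2 : 0 ≤ ∫ y in (Y - δ)..Y, (F (c y) |sin y| - F (c y) 0) := by
    refine intervalIntegral.integral_nonneg (by linarith) (fun y _ => ?_)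
    have := F_mono (c := c y) le_rfl (abs_nonneg (sin y))
    linarith
  have e2 : (∫ y in (0 : ℝ)..(Y - δ), (F (c y) |sin y| - F (c y) 0)) +
      ∫ y in (Y - δ)..Y, (F (c y) |sin y| - F (c y) 0) =
      ∫ y in (0 : ℝ)..Y, (F (c y) |sin y| - F (c y) 0) :=
    intervalIntegral.integral_add_adjacent_intervals ((c2.sub c0).intervalIntegrable _ _)
      ((c2.sub c0).intervalIntegrable _ _)
  rw [intervalIntegral.integral_sub (c2.intervalIntegrable _ _) (c0.intervalIntegrable _ _)
    (a := 0) (b := Y)] at e2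
  rw [intervalIntegral.integral_sub (c1.intervalIntegrable _ _) (c0.intervalIntegrable _ _)]
    at e1
  have e3 : (∫ y in (0 : ℝ)..δ, F (c y) 0) + ∫ y in δ..Y, F (c y) 0 =
      ∫ y in (0 : ℝ)..Y, F (c y) 0 :=
    intervalIntegral.integral_add_adjacent_intervals (c0.intervalIntegrable _ _)
      (c0.intervalIntegrable _ _)
  linarith

end Pool.Agent.Helper40.Arc
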