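import Pool.Agent.Helper40.Arc.Hump
import Pool.Agent.Helper40.Arc.Reflect

/-! The comparison theorem for trajectories. -/

set_option autoImplicit false

namespace Pool.Agent.Helper40.Arc

open Real Set Filter Topology MeasureTheory

variable {q u v : ℝ → ℝ}

theorem sg_le_abs_sin (x : ℝ) (hx : 0 ≤ x) : sg x ≤ |sin x| := by
  rcases le_total x π with h | h
  · rw [sg, min_eq_left h]
    exact le_abs_self _
  · rw [sg, min_eq_right h, sin_pi]
    exact abs_nonneg _

/-- the last hump -/
theorem last0 {c : ℝ → ℝ} {T : ℝ} (h : Tr q u v) (hT : 0 ≤ T) (h0 : u 0 = 0)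
    (hpos : ∀ t ∈ Icc 0 T, 0 ≤ u t) (hc : Continuous c) (hc0 : ∀ t ∈ Icc 0 T, 0 ≤ c t)
    (hm : MonotoneOn c (Icc 0 T)) :
    ∫ t in (0 : ℝ)..T, F (c t) (u t) ≤ ∫ t in (0 : ℝ)..T, F (c t) |sin t| ∧
      (v 0 < 1 → StrictMonoOn c (Icc 0 T) → 0 < T →
        ∫ t in (0 : ℝ)..T, F (c t) (u t) < ∫ t in (0 : ℝ)..T, F (c t) |sin t|) := by
  have c1 : Continuous (fun t => F (c t) (sg t)) := F_comp_cont hc sg_cont
  have c2 : Continuous (fun t => F (c t) |sin t|) := F_comp_cont hc (by fun_prop)
  have h1 : ∫ t in (0 : ℝ)..T, F (c t) (sg t) ≤ ∫ t in (0 : ℝ)..T, F (c t) |sin t| :=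
    intervalIntegral.integral_mono_on hT (c1.intervalIntegrable _ _)
      (c2.intervalIntegrable _ _) (fun t ht => F_mono (sg_nonneg ht.1) (sg_le_abs_sin t ht.1))
  exact ⟨(hump h hT h0 hpos hc hc0 hm).trans h1, fun hv hs hT0 =>
    (hump_strict h hT0 h0 hpos hc hc0 hs hv).trans_le h1⟩

/-- a complete hump -/
theorem step0 {c : ℝ → ℝ} {T l : ℝ} (h : Tr q u v) (h0 : u 0 = 0) (hl : 0 < l) (hlT : l ≤ T)
    (hul : u l = 0) (hpos : ∀ t ∈ Icc 0 l, 0 ≤ u t) (hc : Continuous c)
    (hc0 : ∀ t ∈ Icc 0 T, 0 ≤ c t) (hm : MonotoneOn c (Icc 0 T)) :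
    ((∫ t in (0 : ℝ)..l, F (c t) (u t)) + ∫ t in l..T, F (c t) |sin (t - l)|) ≤
      ∫ t in (0 : ℝ)..T, F (c t) |sin t| ∧
      (v 0 < 1 → StrictMonoOn c (Icc 0 T) →
        ((∫ t in (0 : ℝ)..l, F (c t) (u t)) + ∫ t in l..T, F (c t) |sin (t - l)|) <
          ∫ t in (0 : ℝ)..T, F (c t) |sin t|) := by
  have cu : Continuous (fun t => F (c t) (u t)) := F_comp_cont hc h.cont_u
  have cs : Continuous (fun t => F (c t) |sin t|) := F_comp_cont hc (by fun_prop)
  have csl : Continuous (fun t => F (c t) |sin (t - l)|) := F_comp_cont hc (by fun_prop)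
  rcases le_total l π with hlp | hlp
  · -- short hump
    have hb1 : ∀ t ∈ Icc 0 (l / 2), |u t| ≤ |sin t| := by
      intro t ht
      have h1 : |t - 0| ≤ π / 2 := by
        rw [sub_zero, abs_of_nonneg ht.1]
        linarith [ht.2]
      have := h.bound h0 h1
      rw [sub_zero, abs_of_nonneg ht.1] at this
      exact this.trans (le_abs_self _)
    have hb2 : ∀ t ∈ Icc (l / 2) l, |u t| ≤ |sin (t - l)| := by
      intro t ht
      have h1 : |t - l| ≤ π / 2 := by
        rw [abs_of_nonpos (by linarith [ht.2])]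
        linarith [ht.1]
      have := h.bound hul h1
      refine this.trans ?_
      rw [abs_of_nonpos (by linarith [ht.2] : t - l ≤ 0), sin_neg]
      exact neg_le_abs _
    have i1 : ∫ t in (0 : ℝ)..(l / 2), F (c t) (u t) ≤ ∫ t in (0 : ℝ)..(l / 2), F (c t) |sin t| := by
      refine intervalIntegral.integral_mono_on (by linarith) (cu.intervalIntegrable _ _)
        (cs.intervalIntegrable _ _) (fun t ht => ?_)
      rw [← F_abs (c t) (u t)]
      exact F_mono (abs_nonneg _) (hb1 t ht)
    have i2 : ∫ t in (l / 2)..l, F (c t) (u t) ≤ ∫ t in (l / 2)..l, F (c t) |sin (t - l)| := by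
      refine intervalIntegral.integral_mono_on (by linarith) (cu.intervalIntegrable _ _)
        (csl.intervalIntegrable _ _) (fun t ht => ?_)
      rw [← F_abs (c t) (u t)]
      exact F_mono (abs_nonneg _) (hb2 t ht)
    have e1 : (∫ t in (0 : ℝ)..(l / 2), F (c t) (u t)) + ∫ t in (l / 2)..l, F (c t) (u t) =
        ∫ t in (0 : ℝ)..l, F (c t) (u t) :=
      intervalIntegral.integral_add_adjacent_intervals (cu.intervalIntegrable _ _)
        (cu.intervalIntegrable _ _)
    have e2 : (∫ t in (l / 2)..l, F (c t) |sin (t - l)|) + ∫ t in l..T, F (c t) |sin (t - l)| =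
        ∫ t in (l / 2)..T, F (c t) |sin (t - l)| :=
      intervalIntegral.integral_add_adjacent_intervals (csl.intervalIntegrable _ _)
        (csl.intervalIntegrable _ _)
    have e3 : (∫ t in (0 : ℝ)..(l / 2), F (c t) |sin t|) + ∫ t in (l / 2)..T, F (c t) |sin t| =
        ∫ t in (0 : ℝ)..T, F (c t) |sin t| :=
      intervalIntegral.integral_add_adjacent_intervals (cs.intervalIntegrable _ _)
        (cs.intervalIntegrable _ _)
    obtain ⟨N, hN⟩ := exists_nat_ge ((T - l / 2) / π)
    rw [div_le_iff₀ pi_pos] at hN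
    have h2 := reflect N (c := fun y => c (y + l / 2)) (Y := T - l / 2) (m := l / 2)
      (hc.comp (by fun_prop)) (by linarith) hN
      (fun y hy => hc0 _ ⟨by linarith [hy.1], by linarith [hy.2]⟩)
      (fun x hx y hy hxy => hm ⟨by linarith [hx.1], by linarith [hx.2]⟩
        ⟨by linarith [hy.1], by linarith [hy.2]⟩ (by linarith)) (by linarith) (by linarith)
    have e4 : ∫ y in (0 : ℝ)..(T - l / 2), F (c (y + l / 2)) |sin (y - l / 2)| =
        ∫ t in (l / 2)..T, F (c t) |sin (t - l)| := by
      have := intervalIntegral.integral_comp_add_right (a := 0) (b := T - l / 2)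
        (fun t => F (c t) |sin (t - l)|) (l / 2)
      rw [zero_add, sub_add_cancel] at this
      rw [← this]
      congr 1
      funext y
      rw [show y + l / 2 - l = y - l / 2 by ring]
    have e5 : ∫ y in (0 : ℝ)..(T - l / 2), F (c (y + l / 2)) |sin (y + l / 2)| =
        ∫ t in (l / 2)..T, F (c t) |sin t| := by
      have := intervalIntegral.integral_comp_add_right (a := 0) (b := T - l / 2)
        (fun t => F (c t) |sin t|) (l / 2)
      rw [zero_add, sub_add_cancel] at this
      rw [← this]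
    rw [e4, e5] at h2
    refine ⟨by linarith, fun hv hs => ?_⟩
    have i1' : ∫ t in (0 : ℝ)..(l / 2), F (c t) (u t) <
        ∫ t in (0 : ℝ)..(l / 2), F (c t) |sin t| := by
      obtain ⟨t, ht, ht2⟩ := near_zero h h0 hv (show 0 < l / 2 by linarith)
      refine intervalIntegral.integral_lt_integral_of_continuousOn_of_le_of_exists_lt (by linarith)
        cu.continuousOn cs.continuousOn (fun x hx => ?_) ⟨t, ⟨ht.1.le, ht.2.le⟩, ?_⟩
      · rw [← F_abs (c x) (u x)]
        exact F_mono (abs_nonneg _) (hb1 x ⟨hx.1.le, hx.2⟩)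
      · exact F_strict (hpos t ⟨ht.1.le, by linarith [ht.2]⟩) (ht2.trans_le (le_abs_self _))
    linarith
  · -- long hump
    have csg : Continuous (fun t => F (c t) (sg t)) := F_comp_cont hc sg_cont
    have c00 : Continuous (fun t => F (c t) 0) := F_comp_cont hc continuous_const
    have hsub : Icc 0 l ⊆ Icc 0 T := Icc_subset_Icc_right hlT
    have h1 := hump h hl.le h0 hpos hc (fun t ht => hc0 t (hsub ht)) (hm.mono hsub)
    have e1 : (∫ t in (0 : ℝ)..π, F (c t) (sg t)) + ∫ t in π..l, F (c t) (sg t) =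
        ∫ t in (0 : ℝ)..l, F (c t) (sg t) :=
      intervalIntegral.integral_add_adjacent_intervals (csg.intervalIntegrable _ _)
        (csg.intervalIntegrable _ _)
    have e2 : ∫ t in (0 : ℝ)..π, F (c t) (sg t) = ∫ t in (0 : ℝ)..π, F (c t) |sin t| := by
      refine intervalIntegral.integral_congr (fun t ht => ?_)
      rw [uIcc_of_le pi_pos.le] at ht
      rw [sg, min_eq_left ht.2, abs_of_nonneg (sin_nonneg_of_nonneg_of_le_pi ht.1 ht.2)]
    have e3 : ∫ t in π..l, F (c t) (sg t) = ∫ t in π..l, F (c t) 0 := by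
      refine intervalIntegral.integral_congr (fun t ht => ?_)
      rw [uIcc_of_le hlp] at ht
      rw [sg, min_eq_right ht.1, sin_pi]
    have e4 : (∫ t in (0 : ℝ)..π, F (c t) |sin t|) + ∫ t in π..T, F (c t) |sin t| =
        ∫ t in (0 : ℝ)..T, F (c t) |sin t| :=
      intervalIntegral.integral_add_adjacent_intervals (cs.intervalIntegrable _ _)
        (cs.intervalIntegrable _ _)
    have h2 := delay (c := fun y => c (y + π)) (Y := T - π) (δ := l - π)
      (hc.comp (by fun_prop)) (by linarith) (by linarith)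
      (fun y hy => hc0 _ ⟨by linarith [hy.1, pi_pos], by linarith [hy.2]⟩)
      (fun x hx y hy hxy => hm ⟨by linarith [hx.1, pi_pos], by linarith [hx.2]⟩
        ⟨by linarith [hy.1, pi_pos], by linarith [hy.2]⟩ (by linarith))
    have e5 : ∫ y in (0 : ℝ)..(l - π), F (c (y + π)) 0 = ∫ t in π..l, F (c t) 0 := by
      have := intervalIntegral.integral_comp_add_right (a := 0) (b := l - π)
        (fun t => F (c t) 0) π
      rw [zero_add, sub_add_cancel] at this
      exact this
    have e6 : ∫ y in (l - π)..(T - π), F (c (y + π)) |sin (y - (l - π))| =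
        ∫ t in l..T, F (c t) |sin (t - l)| := by
      have := intervalIntegral.integral_comp_add_right (a := l - π) (b := T - π)
        (fun t => F (c t) |sin (t - l)|) π
      rw [sub_add_cancel, sub_add_cancel] at this
      rw [← this]
      congr 1
      funext y
      rw [show y + π - l = y - (l - π) by ring]
    have e7 : ∫ y in (0 : ℝ)..(T - π), F (c (y + π)) |sin y| = ∫ t in π..T, F (c t) |sin t| := by
      have := intervalIntegral.integral_comp_add_right (a := 0) (b := T - π)
        (fun t => F (c t) |sin t|) π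
      rw [zero_add, sub_add_cancel] at this
      rw [← this]
      congr 1
      funext y
      rw [sin_add_pi, abs_neg]
    rw [e5, e6, e7] at h2
    refine ⟨by linarith, fun hv hs => ?_⟩
    have h1' := hump_strict h hl h0 hpos hc (fun t ht => hc0 t (hsub ht)) (hs.mono hsub) hv
    linarith

/-- constant sign between zeros -/
theorem const_sign (hu : Continuous u) {a b : ℝ} (hne : ∀ t ∈ Ioo a b, u t ≠ 0) :
    (∀ t ∈ Ioo a b, 0 < u t) ∨ ∀ t ∈ Ioo a b, u t < 0 := by
  by_contra hcon
  push Not at hcon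
  obtain ⟨⟨s, hs, hs2⟩, ⟨t, ht, ht2⟩⟩ := hcon
  have h1 : (0 : ℝ) ∈ u '' (Ioo a b) :=
    (isPreconnected_Ioo.image u hu.continuousOn).ordConnected.out
      (mem_image_of_mem u hs) (mem_image_of_mem u ht) ⟨hs2, ht2⟩
  obtain ⟨x, hx, hx2⟩ := h1
  exact hne x hx hx2

theorem const_sign' (hu : Continuous u) {b : ℝ} (h0 : u 0 = 0)
    (hne : ∀ t ∈ Ioo 0 b, u t ≠ 0) :
    (∀ t ∈ Icc 0 b, 0 ≤ u t) ∨ ∀ t ∈ Icc 0 b, u t ≤ 0 := by
  rcases le_or_gt b 0 with hb | hb
  · left
    intro t ht
    have : t = 0 := le_antisymm (ht.2.trans hb) ht.1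
    rw [this, h0]
  · have hcl : closure (Ioo (0 : ℝ) b) = Icc 0 b := closure_Ioo hb.ne
    rcases const_sign hu hne with h | h
    · left
      have h1 : Icc 0 b ⊆ {t | 0 ≤ u t} := by
        rw [← hcl]
        exact closure_minimal (fun t ht => (h t ht).le) (isClosed_le continuous_const hu)
      exact fun t ht => h1 ht
    · right
      have h1 : Icc 0 b ⊆ {t | u t ≤ 0} := by
        rw [← hcl]
        exact closure_minimal (fun t ht => (h t ht).le) (isClosed_le hu continuous_const)
      exact fun t ht => h1 ht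

theorem F_neg (c w : ℝ) : F c (-w) = F c w := by
  unfold F
  rw [neg_sq]

/-- one step: either there is no zero, or there is a first one -/
theorem first_zero (hu : Continuous u) {T : ℝ} (h0 : u 0 = 0)
    (hfin : {t | t ∈ Ioc 0 T ∧ u t = 0}.Finite) :
    (∀ t ∈ Ioc 0 T, u t ≠ 0) ∨ ∃ l, 0 < l ∧ l ≤ T ∧ u l = 0 ∧ (∀ t ∈ Ioo 0 l, u t ≠ 0) := by
  by_cases he : {t | t ∈ Ioc 0 T ∧ u t = 0}.Nonempty
  · right
    obtain ⟨l, hl, hmin⟩ := hfin.exists_minimal he
    refine ⟨l, hl.1.1, hl.1.2, hl.2, fun t ht h1 => ?_⟩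
    have := hmin (show t ∈ {t | t ∈ Ioc 0 T ∧ u t = 0} from
      ⟨⟨ht.1, ht.2.le.trans hl.1.2⟩, h1⟩) ht.2.le
    linarith [ht.2]
  · left
    intro t ht h1
    exact he ⟨t, ht, h1⟩

/-- the comparison theorem -/
theorem main (k : ℕ) : ∀ {q u v : ℝ → ℝ} {c : ℝ → ℝ} {T : ℝ}, Tr q u v → 0 ≤ T → u 0 = 0 →
    Continuous c → (∀ t ∈ Icc 0 T, 0 ≤ c t) → MonotoneOn c (Icc 0 T) →
    {t | t ∈ Ioc 0 T ∧ u t = 0}.Finite → {t | t ∈ Ioc 0 T ∧ u t = 0}.ncard ≤ k →
    ∫ t in (0 : ℝ)..T, F (c t) (u t) ≤ ∫ t in (0 : ℝ)..T, F (c t) |sin t| := by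
  induction k with
  | zero =>
    intro q u v c T h hT h0 hc hc0 hm hfin hcard
    have hemp : {t | t ∈ Ioc 0 T ∧ u t = 0} = ∅ := by
      rw [← Set.ncard_eq_zero hfin]
      omega
    have hne : ∀ t ∈ Ioo 0 T, u t ≠ 0 := by
      intro t ht h1
      have : t ∈ {t | t ∈ Ioc 0 T ∧ u t = 0} := ⟨⟨ht.1, ht.2.le⟩, h1⟩
      rw [hemp] at this
      exact this
    rcases const_sign' h.cont_u h0 hne with hp | hp
    · exact (last0 h hT h0 hp hc hc0 hm).1
    · have := (last0 h.neg hT (by simpa using h0) (fun t ht => by simpa using hp t ht)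
        hc hc0 hm).1
      simpa only [F_neg] using this
  | succ k ih =>
    intro q u v c T h hT h0 hc hc0 hm hfin hcard
    rcases first_zero h.cont_u h0 hfin with hno | ⟨l, hl, hlT, hul, hne⟩
    · rcases const_sign' h.cont_u h0 (fun t ht => hno t ⟨ht.1, ht.2.le⟩) with hp | hp
      · exact (last0 h hT h0 hp hc hc0 hm).1
      · have := (last0 h.neg hT (by simpa using h0) (fun t ht => by simpa using hp t ht)
          hc hc0 hm).1
        simpa only [F_neg] using this
    · have hstep : ((∫ t in (0 : ℝ)..l, F (c t) (u t)) + ∫ t in l..T, F (c t) |sin (t - l)|) ≤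
          ∫ t in (0 : ℝ)..T, F (c t) |sin t| := by
        rcases const_sign' h.cont_u h0 hne with hp | hp
        · exact (step0 h h0 hl hlT hul hp hc hc0 hm).1
        · have := (step0 h.neg (by simpa using h0) hl hlT (by simpa using hul)
            (fun t ht => by simpa using hp t ht) hc hc0 hm).1
          simpa only [F_neg] using this
      -- the rest
      have himg : (fun t => t + l) '' {t | t ∈ Ioc 0 (T - l) ∧ u (t + l) = 0} ⊆
          {t | t ∈ Ioc 0 T ∧ u t = 0} \ {l} := by
        rintro _ ⟨t, ⟨ht, ht2⟩, rfl⟩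
        refine ⟨⟨⟨by simp only; linarith [ht.1], by simp only; linarith [ht.2]⟩, ht2⟩, ?_⟩
        intro h5
        have : t + l = l := h5
        linarith [ht.1]
      have hinj : Function.Injective (fun t : ℝ => t + l) := add_left_injective l
      have hfin' : {t | t ∈ Ioc 0 (T - l) ∧ u (t + l) = 0}.Finite := by
        refine Set.Finite.of_finite_image ((hfin.subset diff_subset).subset himg) hinj.injOn
      have hcard' : {t | t ∈ Ioc 0 (T - l) ∧ u (t + l) = 0}.ncard ≤ k := by
        rw [← Set.ncard_image_of_injective _ hinj]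
        refine (Set.ncard_le_ncard himg (hfin.subset diff_subset)).trans ?_
        rw [Set.ncard_diff_singleton_of_mem (show l ∈ {t | t ∈ Ioc 0 T ∧ u t = 0} from
          ⟨⟨hl, hlT⟩, hul⟩)]
        omega
      have h3 := ih (h.shift l) (c := fun t => c (t + l)) (T := T - l) (by linarith)
        (by simpa using hul) (hc.comp (by fun_prop))
        (fun y hy => hc0 _ ⟨by linarith [hy.1], by linarith [hy.2]⟩)
        (fun x hx y hy hxy => hm ⟨by linarith [hx.1], by linarith [hx.2]⟩
          ⟨by linarith [hy.1], by linarith [hy.2]⟩ (by linarith)) hfin' hcard'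
      have e1 : ∫ t in (0 : ℝ)..(T - l), F (c (t + l)) (u (t + l)) =
          ∫ t in l..T, F (c t) (u t) := by
        have := intervalIntegral.integral_comp_add_right (a := 0) (b := T - l)
          (fun t => F (c t) (u t)) l
        rw [zero_add, sub_add_cancel] at this
        exact this
      have e2 : ∫ t in (0 : ℝ)..(T - l), F (c (t + l)) |sin t| =
          ∫ t in l..T, F (c t) |sin (t - l)| := by
        have := intervalIntegral.integral_comp_add_right (a := 0) (b := T - l)
          (fun t => F (c t) |sin (t - l)|) l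
        rw [zero_add, sub_add_cancel] at this
        rw [← this]
        congr 1
        funext y
        rw [add_sub_cancel_right]
      rw [e1, e2] at h3
      have cu : Continuous (fun t => F (c t) (u t)) := F_comp_cont hc h.cont_u
      rw [← intervalIntegral.integral_add_adjacent_intervals (cu.intervalIntegrable 0 l)
        (cu.intervalIntegrable l T)]
      linarith

/-- strictness -/
theorem main_strict {c : ℝ → ℝ} {T : ℝ} (h : Tr q u v) (hT : 0 < T) (h0 : u 0 = 0)
    (hc : Continuous c) (hc0 : ∀ t ∈ Icc 0 T, 0 ≤ c t) (hm : StrictMonoOn c (Icc 0 T))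
    (hfin : {t | t ∈ Ioc 0 T ∧ u t = 0}.Finite) (hv : |v 0| < 1) :
    ∫ t in (0 : ℝ)..T, F (c t) (u t) < ∫ t in (0 : ℝ)..T, F (c t) |sin t| := by
  have hv1 : v 0 < 1 := (abs_lt.1 hv).2
  have hv2 : -v 0 < 1 := by linarith [(abs_lt.1 hv).1]
  rcases first_zero h.cont_u h0 hfin with hno | ⟨l, hl, hlT, hul, hne⟩
  · rcases const_sign' h.cont_u h0 (fun t ht => hno t ⟨ht.1, ht.2.le⟩) with hp | hp
    · exact (last0 h hT.le h0 hp hc hc0 hm.monotoneOn).2 hv1 hm hT
    · have := (last0 h.neg hT.le (by simpa using h0) (fun t ht => by simpa using hp t ht)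
        hc hc0 hm.monotoneOn).2 hv2 hm hT
      simpa only [F_neg] using this
  · have hstep : ((∫ t in (0 : ℝ)..l, F (c t) (u t)) + ∫ t in l..T, F (c t) |sin (t - l)|) <
        ∫ t in (0 : ℝ)..T, F (c t) |sin t| := by
      rcases const_sign' h.cont_u h0 hne with hp | hp
      · exact (step0 h h0 hl hlT hul hp hc hc0 hm.monotoneOn).2 hv1 hm
      · have := (step0 h.neg (by simpa using h0) hl hlT (by simpa using hul)
          (fun t ht => by simpa using hp t ht) hc hc0 hm.monotoneOn).2 hv2 hm
        simpa only [F_neg] using this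
    have himg : (fun t => t + l) '' {t | t ∈ Ioc 0 (T - l) ∧ u (t + l) = 0} ⊆
        {t | t ∈ Ioc 0 T ∧ u t = 0} := by
      rintro _ ⟨t, ⟨ht, ht2⟩, rfl⟩
      exact ⟨⟨by simp only; linarith [ht.1], by simp only; linarith [ht.2]⟩, ht2⟩
    have hinj : Function.Injective (fun t : ℝ => t + l) := add_left_injective l
    have hfin' : {t | t ∈ Ioc 0 (T - l) ∧ u (t + l) = 0}.Finite :=
      Set.Finite.of_finite_image (hfin.subset himg) hinj.injOn
    have h3 := main _ (h.shift l) (c := fun t => c (t + l)) (T := T - l) (by linarith)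
      (by simpa using hul) (hc.comp (by fun_prop))
      (fun y hy => hc0 _ ⟨by linarith [hy.1], by linarith [hy.2]⟩)
      (fun x hx y hy hxy => hm.monotoneOn ⟨by linarith [hx.1], by linarith [hx.2]⟩
        ⟨by linarith [hy.1], by linarith [hy.2]⟩ (by linarith)) hfin' le_rfl
    have e1 : ∫ t in (0 : ℝ)..(T - l), F (c (t + l)) (u (t + l)) =
        ∫ t in l..T, F (c t) (u t) := by
      have := intervalIntegral.integral_comp_add_right (a := 0) (b := T - l)
        (fun t => F (c t) (u t)) l
      rw [zero_add, sub_add_cancel] at this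
      exact this
    have e2 : ∫ t in (0 : ℝ)..(T - l), F (c (t + l)) |sin t| =
        ∫ t in l..T, F (c t) |sin (t - l)| := by
      have := intervalIntegral.integral_comp_add_right (a := 0) (b := T - l)
        (fun t => F (c t) |sin (t - l)|) l
      rw [zero_add, sub_add_cancel] at this
      rw [← this]
      congr 1
      funext y
      rw [add_sub_cancel_right]
    rw [e1, e2] at h3
    have cu : Continuous (fun t => F (c t) (u t)) := F_comp_cont hc h.cont_u
    rw [← intervalIntegral.integral_add_adjacent_intervals (cu.intervalIntegrable 0 l)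
      (cu.intervalIntegrable l T)]
    linarith

end Pool.Agent.Helper40.Arc
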